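import Mathlib
import Pool.Agent.E8helper34.MC.Four
import Pool.Agent.E8helper34.MC.RelZ

set_option autoImplicit false

/-! The hyperelliptic involution is in Humphries' group: palindromic product of the chain. -/

namespace Pool.Agent.E8helper34.MR

open Pool.Agent.H29R2.MG Pool.Agent.TH35.MG Pool.Agent.R352.MG Pool.Agent.R665.MGR
  Pool.Agent.E8helper34.MC

section
variable {g : ℕ}

/-- `t_j` for `0 < j < 2 g` -/
def ss (g j : ℕ) : MulAut (SurfaceGroup g) := if h : j < 2 * g then sv ⟨j, h⟩ else 1

theorem ss_self {j : ℕ} (hj : j < 2 * g) (h1 : 0 < j) :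
    ss g j (YY g j) = YY g j * YY g (j - 1) * YY g j := by
  unfold ss
  rw [dif_pos hj, sv_YY hj h1, if_neg (by omega), if_pos rfl]

theorem ss_pred {j : ℕ} (hj : j + 1 < 2 * g) :
    ss g (j + 1) (YY g j) = (YY g (j + 1))⁻¹ := by
  unfold ss
  rw [dif_pos hj, sv_YY hj (by omega), if_pos rfl]

theorem ss_other {j k : ℕ} (hj : j < 2 * g) (h1 : 0 < j) (hk : k + 1 ≠ j) (hk' : k ≠ j) :
    ss g j (YY g k) = YY g k := by
  unfold ss
  rw [dif_pos hj, sv_YY hj h1, if_neg hk, if_neg hk']

/-- `t_k ⋯ t_1 t_0^2 t_1 ⋯ t_k` -/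
def DD (g : ℕ) : ℕ → MulAut (SurfaceGroup g)
  | 0 => tw g 0 * tw g 0
  | k + 1 => ss g (k + 1) * DD g k * ss g (k + 1)

theorem ss_QQ {k : ℕ} (hk : k + 1 < 2 * g) : ss g (k + 1) (QQ (YY g) k) = QQ (YY g) k := by
  have h := map_QQ (ss g (k + 1)).toMonoidHom (YY g) k
  refine h.trans (QQ_congr fun i hi => ?_)
  exact ss_other hk (by omega) (by omega) (by omega)

theorem ss_PQ {k : ℕ} (hk : k + 1 < 2 * g) : ss g (k + 1) (PQ (YY g) k) = PQ (YY g) k := by
  have h := map_PQ (ss g (k + 1)).toMonoidHom (YY g) k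
  refine h.trans (PQ_congr fun i hi => ?_)
  exact ss_other hk (by omega) (by omega) (by omega)

/-- the formulas for `DD g k` -/
structure DF (g k : ℕ) : Prop where
  low : ∀ i < k, DD g k (YY g i) = if k % 2 = 1 then YY g k * (YY g i)⁻¹ * (YY g k)⁻¹ else
    (YY g k)⁻¹ * (YY g i)⁻¹ * YY g k
  self : DD g k (YY g k) = if k % 2 = 1 then
    YY g k * QQ (YY g) k * (YY g k)⁻¹ * PQ (YY g) k * (YY g k)⁻¹ else
    (YY g k)⁻¹ * QQ (YY g) k * YY g k * PQ (YY g) k * YY g k
  high : ∀ i, k < i → DD g k (YY g i) = if k % 2 = 1 then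
      (if i % 2 = 0 then YY g k * YY g k * YY g i else YY g i * (YY g k)⁻¹ * (YY g k)⁻¹) else
      (if i % 2 = 1 then YY g i * YY g k * YY g k else (YY g k)⁻¹ * (YY g k)⁻¹ * YY g i)

theorem tw0_YY (k : ℕ) : tw g 0 (YY g k) = if k = 0 then YY g 0 else
    if k % 2 = 0 then (YY g 0)⁻¹ * YY g k else YY g k * YY g 0 := by
  have h2 : QQ (YY g) (2 * 0 + 1) = YY g 0 := mul_one _
  rw [tw_YY, h2]
  by_cases h : k = 0
  · subst h
    rw [if_pos (by omega), if_pos rfl]
  · rw [if_neg (by omega), if_neg h]

theorem DF_zero : DF g 0 where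
  low := fun i hi => absurd hi (by omega)
  self := by
    show tw g 0 (tw g 0 (YY g 0)) = _
    rw [tw0_YY, if_pos rfl, tw0_YY, if_pos rfl, if_neg (by omega)]
    show YY g 0 = (YY g 0)⁻¹ * 1 * YY g 0 * 1 * YY g 0
    group
  high := by
    intro i hi
    show tw g 0 (tw g 0 (YY g i)) = _
    rw [if_neg (by omega : ¬ 0 % 2 = 1)]
    have h0 : tw g 0 (YY g 0) = YY g 0 := by rw [tw0_YY, if_pos rfl]
    have hi' := tw0_YY (g := g) i
    rw [if_neg (by omega)] at hi'
    rcases Nat.mod_two_eq_zero_or_one i with h | h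
    · rw [if_pos h] at hi'
      rw [if_neg (by omega), hi', map_mul, map_inv, h0, hi']
      group
    · rw [if_neg (by omega)] at hi'
      rw [if_pos h, hi', map_mul, h0, hi']

theorem DF_succ {k : ℕ} (hk : k + 1 < 2 * g) (D : DF g k) : DF g (k + 1) := by
  have s1 := ss_self (g := g) (j := k + 1) hk (by omega)
  rw [Nat.add_sub_cancel] at s1
  have s2 := ss_pred (g := g) (j := k) hk
  have s3 := ss_QQ (g := g) hk
  have s4 := ss_PQ (g := g) hk
  have dk := D.self
  have dk1 := D.high (k + 1) (by omega)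
  have eQ : QQ (YY g) (k + 1) = YY g k * QQ (YY g) k := rfl
  have eP : PQ (YY g) (k + 1) = PQ (YY g) k * YY g k := rfl
  have hD : ∀ x, DD g (k + 1) x = ss g (k + 1) (DD g k (ss g (k + 1) x)) := fun x => rfl
  rcases Nat.mod_two_eq_zero_or_one k with h | h
  · rw [if_neg (by omega)] at dk
    rw [if_neg (by omega), if_pos (by omega)] at dk1
    refine ⟨?_, ?_, ?_⟩
    · intro i hi
      rw [if_pos (by omega), hD]
      rcases Nat.lt_or_ge i k with h1 | h1
      · have s5 := ss_other (g := g) hk (by omega) (k := i) (by omega) (by omega)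
        have d5 := D.low i h1
        rw [if_neg (by omega)] at d5
        rw [s5, d5]
        simp only [map_mul, map_inv, s2, s5]
        group
      · obtain rfl : i = k := by omega
        rw [s2]
        simp only [map_mul, map_inv, dk1, s2, s1]
        group
    · rw [if_pos (by omega), hD, s1]
      simp only [map_mul, map_inv, dk1, dk, s2, s1, s3, s4, eQ, eP]
      group
    · intro i hi
      rw [if_pos (by omega), hD]
      have s5 := ss_other (g := g) hk (by omega) (k := i) (by omega) (by omega)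
      have d5 := D.high i (by omega)
      rw [if_neg (by omega)] at d5
      rcases Nat.mod_two_eq_zero_or_one i with h2 | h2
      · rw [if_neg (by omega)] at d5
        rw [if_pos h2, s5, d5]
        simp only [map_mul, map_inv, s2, s5]
        group
      · rw [if_pos (by omega)] at d5
        rw [if_neg (by omega), s5, d5]
        simp only [map_mul, map_inv, s2, s5]
  · rw [if_pos (by omega)] at dk
    rw [if_pos (by omega), if_pos (by omega)] at dk1
    refine ⟨?_, ?_, ?_⟩
    · intro i hi
      rw [if_neg (by omega), hD]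
      rcases Nat.lt_or_ge i k with h1 | h1
      · have s5 := ss_other (g := g) hk (by omega) (k := i) (by omega) (by omega)
        have d5 := D.low i h1
        rw [if_pos (by omega)] at d5
        rw [s5, d5]
        simp only [map_mul, map_inv, s2, s5]
        group
      · obtain rfl : i = k := by omega
        rw [s2]
        simp only [map_mul, map_inv, dk1, s2, s1]
        group
    · rw [if_neg (by omega), hD, s1]
      simp only [map_mul, map_inv, dk1, dk, s2, s1, s3, s4, eQ, eP]
      group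
    · intro i hi
      rw [if_neg (by omega), hD]
      have s5 := ss_other (g := g) hk (by omega) (k := i) (by omega) (by omega)
      have d5 := D.high i (by omega)
      rw [if_pos (by omega)] at d5
      rcases Nat.mod_two_eq_zero_or_one i with h2 | h2
      · rw [if_pos (by omega)] at d5
        rw [if_neg (by omega), s5, d5]
        simp only [map_mul, map_inv, s2, s5]
      · rw [if_neg (by omega)] at d5
        rw [if_pos (by omega), s5, d5]
        simp only [map_mul, map_inv, s2, s5]
        group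

theorem DF_all {k : ℕ} (hk : k < 2 * g) : DF g k := by
  induction k with
  | zero => exact DF_zero
  | succ k ih => exact DF_succ hk (ih (by omega))

/-- the palindromic relation -/
theorem palin (hg : 1 ≤ g) : tw g (g - 1) * DD g (2 * g - 1) * tw g (g - 1) =
    MulAut.conj (QQ (YY g) (2 * g)) * iota g := by
  obtain ⟨m, rfl⟩ : ∃ m, g = m + 1 := ⟨g - 1, by omega⟩
  obtain ⟨k, hk⟩ : ∃ k, k = 2 * m + 1 := ⟨_, rfl⟩
  have D := DF_all (g := m + 1) (k := k) (by omega)
  have e1 : 2 * (m + 1) - 1 = k := by omega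
  have e2 : m + 1 - 1 = m := by omega
  have e3 : 2 * (m + 1) = k + 1 := by omega
  have hodd : k % 2 = 1 := by omega
  have t1 : ∀ i < k, tw (m + 1) m (YY (m + 1) i) = YY (m + 1) i := by
    intro i hi
    rw [tw_YY, if_pos (by omega)]
  have t2 : tw (m + 1) m (YY (m + 1) k) = YY (m + 1) k * QQ (YY (m + 1)) k := by
    rw [tw_YY, if_neg (by omega), if_neg (by omega), hk]
  have t3 : tw (m + 1) m (QQ (YY (m + 1)) k) = QQ (YY (m + 1)) k :=
    (map_QQ (tw (m + 1) m).toMonoidHom _ k).trans (QQ_congr fun i hi => t1 i hi)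
  have dk := D.self
  rw [if_pos hodd] at dk
  have dl : ∀ i < k, DD (m + 1) k (YY (m + 1) i) =
      YY (m + 1) k * (YY (m + 1) i)⁻¹ * (YY (m + 1) k)⁻¹ := by
    intro i hi
    have := D.low i hi
    rwa [if_pos hodd] at this
  have dQ : DD (m + 1) k (QQ (YY (m + 1)) k) =
      YY (m + 1) k * (PQ (YY (m + 1)) k)⁻¹ * (YY (m + 1) k)⁻¹ := by
    have h1 := map_QQ (DD (m + 1) k).toMonoidHom (YY (m + 1)) k
    have h2 := map_QQ (MulAut.conj (YY (m + 1) k)).toMonoidHom (fun i => (YY (m + 1) i)⁻¹) k
    have h3 : QQ (fun i => (DD (m + 1) k).toMonoidHom (YY (m + 1) i)) k =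
        QQ (fun i => (MulAut.conj (YY (m + 1) k)).toMonoidHom ((YY (m + 1) i)⁻¹)) k := by
      apply QQ_congr
      intro i hi
      exact dl i hi
    have h4 : DD (m + 1) k (QQ (YY (m + 1)) k) =
        MulAut.conj (YY (m + 1) k) (QQ (fun i => (YY (m + 1) i)⁻¹) k) :=
      h1.trans (h3.trans h2.symm)
    rw [h4, MulAut.conj_apply, QQ_inv]
  have eQ : QQ (YY (m + 1)) (k + 1) = YY (m + 1) k * QQ (YY (m + 1)) k := rfl
  rw [e1, e2, e3, eQ]
  apply mulAut_ext_Y
  intro i hi
  rw [MulAut.mul_apply, MulAut.mul_apply, MulAut.mul_apply, MulAut.conj_apply,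
    iota_YY (by omega)]
  rcases Nat.lt_or_ge i k with h1 | h1
  · rw [t1 i h1, dl i h1]
    simp only [map_mul, map_inv, t1 i h1, t2]
  · obtain rfl : i = k := by omega
    rw [t2, map_mul, dk, dQ]
    have e4 : YY (m + 1) i * QQ (YY (m + 1)) i * (YY (m + 1) i)⁻¹ * PQ (YY (m + 1)) i *
        (YY (m + 1) i)⁻¹ * (YY (m + 1) i * (PQ (YY (m + 1)) i)⁻¹ * (YY (m + 1) i)⁻¹) =
        YY (m + 1) i * QQ (YY (m + 1)) i * (YY (m + 1) i)⁻¹ * (YY (m + 1) i)⁻¹ := by group
    rw [e4]
    simp only [map_mul, map_inv, t3, t2]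
    group

/-- all the twists about the `a_m` are in Humphries' group -/
theorem AA_mem (hg : 2 ≤ g) : ∀ m < g, AA g m ∈ Humphries g := by
  intro m
  induction m using Nat.strong_induction_on with
  | _ m ih =>
    intro hm
    rcases Nat.lt_or_ge m 2 with h | h
    · rcases (by omega : m = 0 ∨ m = 1) with rfl | rfl
      · rw [← tt_zero' (by omega)]
        exact tt_mem (by omega)
      · exact e_mem (AA_twist (by omega))
    · obtain ⟨p, rfl⟩ : ∃ p, m = p + 2 := ⟨m - 2, by omega⟩
      have h1 := relZ (g := g) (p := p) (by omega)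
      have h2 := ih p (by omega) (by omega)
      have h3 := ih (p + 1) (by omega) (by omega)
      have hZ : Zw (tt g (2 * p + 1)) (tt g (2 * p + 2)) (tt g (2 * p + 3)) (AA g (p + 1))
          (tt g (2 * p + 4)) (tt g (2 * p + 5)) ∈ Humphries g := by
        have k1 := tt_mem (g := g) (j := 2 * p + 1) (by omega)
        have k2 := tt_mem (g := g) (j := 2 * p + 2) (by omega)
        have k3 := tt_mem (g := g) (j := 2 * p + 3) (by omega)
        have k4 := tt_mem (g := g) (j := 2 * p + 4) (by omega)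
        have k5 := tt_mem (g := g) (j := 2 * p + 5) (by omega)
        unfold Zw
        first
          | exact mul_mem (mul_mem (mul_mem (mul_mem (mul_mem (mul_mem (mul_mem (mul_mem k1 k2) k3) h3) k4) k5) k1) k2) k3
          | (repeat' apply mul_mem) <;> first | assumption | (apply inv_mem; assumption)
      have h4 : AA g (p + 2) = (Zw (tt g (2 * p + 1)) (tt g (2 * p + 2)) (tt g (2 * p + 3))
          (AA g (p + 1)) (tt g (2 * p + 4)) (tt g (2 * p + 5)))⁻¹ * (AA g p *
          Zw (tt g (2 * p + 1)) (tt g (2 * p + 2)) (tt g (2 * p + 3)) (AA g (p + 1))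
          (tt g (2 * p + 4)) (tt g (2 * p + 5))) := by
        rw [h1]; group
      rw [h4]
      exact mul_mem (inv_mem hZ) (mul_mem h2 hZ)

/-- `t_j` in `orientedAut` -/
def os (g j : ℕ) : orientedAut g := if h : j < 2 * g then oj g j h else 1

theorem os_val (j : ℕ) : ((os g j : orientedAut g) : MulAut (SurfaceGroup g)) = ss g j := by
  unfold os ss
  split_ifs
  · rfl
  · rfl

/-- the palindromic product in `orientedAut` -/
def oD (g : ℕ) (hg : 0 < g) : ℕ → orientedAut g
  | 0 => oA g 0 hg * oA g 0 hg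
  | k + 1 => os g (k + 1) * oD g hg k * os g (k + 1)

theorem oD_val (hg : 0 < g) (k : ℕ) :
    ((oD g hg k : orientedAut g) : MulAut (SurfaceGroup g)) = DD g k := by
  induction k with
  | zero => rfl
  | succ k ih =>
    show ((os g (k + 1) * oD g hg k * os g (k + 1) : orientedAut g) : MulAut (SurfaceGroup g)) = _
    rw [Subgroup.coe_mul, Subgroup.coe_mul, ih, os_val]
    rfl

theorem oD_mem (hg : 2 ≤ g) : ∀ k < 2 * g, classOf g (oD g (by omega) k) ∈ Humphries g := by
  intro k
  induction k with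
  | zero =>
    intro _
    have h := AA_mem hg 0 (by omega)
    rw [AA_lt (show 0 < g by omega)] at h
    exact mul_mem h h
  | succ k ih =>
    intro hk
    have h1 := ih (by omega)
    have h2 := tt_mem (g := g) hk
    rw [tt_lt hk] at h2
    have h3 : classOf g (os g (k + 1)) ∈ Humphries g := by
      unfold os
      rw [dif_pos hk]
      exact h2
    exact mul_mem (mul_mem h3 h1) h3

/-- the hyperelliptic involution is in Humphries' group -/
theorem hyp_mem (hg : 2 ≤ g) : hyp g ∈ Humphries g := by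
  have h1 := oD_mem hg (2 * g - 1) (by omega)
  have h2 := AA_mem hg (g - 1) (by omega)
  rw [AA_lt (show g - 1 < g by omega)] at h2
  have h3 : classOf g (oA g (g - 1) (by omega) * oD g (by omega) (2 * g - 1) *
      oA g (g - 1) (by omega)) = classOf g (oi g) := by
    apply class_conj (QQ (YY g) (2 * g))
    rw [Subgroup.coe_mul, Subgroup.coe_mul, oD_val]
    exact palin (by omega)
  have h4 : hyp g = classOf g (oi g) := rfl
  rw [h4, ← h3]
  exact mul_mem (mul_mem h2 h1) h2

end

end Pool.Agent.E8helper34.MR
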