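import Mathlib
import Pool.Agent.E8helper34.MR.Hyp

set_option autoImplicit false

/-! Humphries' group as a group: its elements and relations. -/

namespace Pool.Agent.E8helper34.MR

open Pool.Agent.H29R2.MG Pool.Agent.TH35.MG Pool.Agent.R352.MG Pool.Agent.R665.MGR
  Pool.Agent.E8helper34.MC

section
variable {g : ℕ}

/-- Humphries' group -/
abbrev HG (g : ℕ) : Type := Humphries g

/-- the twist `t_j` -/
def tM (g j : ℕ) : HG g := if h : j < 2 * g then ⟨tt g j, tt_mem h⟩ else 1

/-- the twist about `a_m` -/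
def aM (g m : ℕ) : HG g := if h : 2 ≤ g ∧ m < g then ⟨AA g m, AA_mem h.1 m h.2⟩ else 1

/-- the hyperelliptic involution -/
def hM (g : ℕ) : HG g := if h : 2 ≤ g then ⟨hyp g, hyp_mem h⟩ else 1

theorem tM_coe (j : ℕ) : ((tM g j : HG g) : Mod g) = tt g j := by
  unfold tM
  split_ifs with h
  · rfl
  · unfold tt
    rw [dif_neg h]
    rfl

theorem aM_coe (hg : 2 ≤ g) {m : ℕ} (hm : m < g) : ((aM g m : HG g) : Mod g) = AA g m := by
  unfold aM
  rw [dif_pos ⟨hg, hm⟩]

theorem hM_coe (hg : 2 ≤ g) : ((hM g : HG g) : Mod g) = hyp g := by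
  unfold hM
  rw [dif_pos hg]

theorem tM_zero (hg : 2 ≤ g) : tM g 0 = aM g 0 := by
  apply Subtype.ext
  rw [tM_coe, aM_coe hg (by omega), tt_zero' (by omega)]

theorem humM (hg : 3 ≤ g) : HumRel (2 * g) (tM g) (aM g 1) := by
  have r := humRel (g := g) hg (AA_twist (show 1 < g by omega))
  have e := aM_coe (g := g) (by omega) (show 1 < g by omega)
  refine ⟨?_, ?_, ?_, ?_⟩
  · intro j hj
    apply Subtype.ext
    simp only [Subgroup.coe_mul, tM_coe]
    exact r.braid j hj
  · intro i j h hj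
    apply Subtype.ext
    simp only [Subgroup.coe_mul, tM_coe]
    exact r.far i j h hj
  · apply Subtype.ext
    simp only [Subgroup.coe_mul, tM_coe, e]
    exact r.braidE
  · intro j hj h3
    apply Subtype.ext
    simp only [Subgroup.coe_mul, tM_coe, e]
    exact r.farE j hj h3

theorem relZM {p : ℕ} (h : p + 2 < g) :
    aM g p * Zw (tM g (2 * p + 1)) (tM g (2 * p + 2)) (tM g (2 * p + 3)) (aM g (p + 1))
        (tM g (2 * p + 4)) (tM g (2 * p + 5)) =
      Zw (tM g (2 * p + 1)) (tM g (2 * p + 2)) (tM g (2 * p + 3)) (aM g (p + 1))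
        (tM g (2 * p + 4)) (tM g (2 * p + 5)) * aM g (p + 2) := by
  have h1 := relZ h
  apply (Humphries g).subtype_injective
  simp only [map_mul, map_Zw, Subgroup.subtype_apply, tM_coe]
  rw [aM_coe (by omega) (by omega), aM_coe (by omega) (by omega), aM_coe (by omega) h]
  exact h1

theorem relFM (hg : 3 ≤ g) :
    Fw (tM g 2) (tM g 4) (aM g 1) (tM g 3) (aM g 0) (aM g 2) * tM g 1 *
      Fw (tM g 2) (tM g 4) (aM g 1) (tM g 3) (aM g 0) (aM g 2) =
    tM g 1 * Fw (tM g 2) (tM g 4) (aM g 1) (tM g 3) (aM g 0) (aM g 2) * tM g 1 := by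
  have h1 := relF hg
  apply (Humphries g).subtype_injective
  simp only [map_mul, map_Fw, Subgroup.subtype_apply, tM_coe]
  rw [aM_coe (by omega) (by omega), aM_coe (by omega) (by omega), aM_coe (by omega) (by omega)]
  exact h1

theorem fourM (hg : 2 ≤ g) : tM g 0 * tM g 1 * tM g 2 * (tM g 0 * tM g 1 * tM g 2) *
    (tM g 0 * tM g 1 * tM g 2 * (tM g 0 * tM g 1 * tM g 2)) =
      aM g 1 * (hM g * aM g 1 * hM g) := by
  have h1 := four_mod hg
  apply Subtype.ext
  simp only [Subgroup.coe_mul, tM_coe]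
  rw [aM_coe hg (by omega), hM_coe hg]
  exact h1

theorem hM_mul_self (hg : 2 ≤ g) : hM g * hM g = 1 := by
  apply Subtype.ext
  rw [Subgroup.coe_mul, hM_coe hg, hyp_mul_self]
  rfl

theorem hM_tM (hg : 2 ≤ g) {j : ℕ} (hj : j < 2 * g) : hM g * tM g j = tM g j * hM g := by
  apply Subtype.ext
  rw [Subgroup.coe_mul, Subgroup.coe_mul, hM_coe hg, tM_coe, hyp_tt hj]

theorem hM_last (hg : 2 ≤ g) : hM g * aM g (g - 1) = aM g (g - 1) * hM g := by
  apply Subtype.ext
  rw [Subgroup.coe_mul, Subgroup.coe_mul, hM_coe hg, aM_coe hg (by omega),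
    hyp_last (by omega)]

/-- induction over Humphries' group -/
theorem HG_induction (hg : 2 ≤ g) {p : HG g → Prop} (ht : ∀ j < 2 * g, p (tM g j))
    (he : p (aM g 1)) (h1 : p 1) (hmul : ∀ x y, p x → p y → p (x * y))
    (hinv : ∀ x, p x → p x⁻¹) (x : HG g) : p x := by
  obtain ⟨x, hx⟩ := x
  induction hx using Subgroup.closure_induction with
  | mem x hx =>
    rcases hx with ⟨j, rfl⟩ | hx
    · have e : (⟨chainTwist g j, Subgroup.subset_closure (Or.inl ⟨j, rfl⟩)⟩ : HG g) =
          tM g j := by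
        apply Subtype.ext
        rw [tM_coe, tt_lt j.2]
      rw [e]
      exact ht j j.2
    · have e : (⟨x, Subgroup.subset_closure (Or.inr hx)⟩ : HG g) = aM g 1 := by
        apply Subtype.ext
        rw [aM_coe hg (by omega)]
        exact twist_eq (by omega) hx
      rw [e]
      exact he
  | one => exact h1
  | mul x y hx hy h2 h3 => exact hmul ⟨x, hx⟩ ⟨y, hy⟩ h2 h3
  | inv x hx h2 => exact hinv ⟨x, hx⟩ h2

end

end Pool.Agent.E8helper34.MR
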