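import Mathlib
import Pool.Agent.E8helper15.MGR.A

set_option autoImplicit false

/-! The handle elements lie in Humphries' group (helper15). -/

namespace Pool.Agent.E8helper34.MR

theorem t_A : S_A := Pool.Agent.E8helper15.MGR.t_A

end Pool.Agent.E8helper34.MR
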