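import Mathlib
import Pool.Agent.E8helper34.MR.El
import Pool.Agent.E8helper34.MR.SA

set_option autoImplicit false

/-! The handle elements in Humphries' group, and the vanishing of products. -/

namespace Pool.Agent.E8helper34.MR

open Pool.Agent.H29R2.MG Pool.Agent.TH35.MG Pool.Agent.R352.MG Pool.Agent.R665.MGR
  Pool.Agent.E8helper34.MC Pool.Agent.H798R3.MG Pool.Agent.Helper950.BG Module

universe u

/-- the handle elements and a homomorphism to Humphries' group -/
theorem setupM {g : ℕ} (hg : 7 ≤ g) :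
    ∃ (Γ : Subgroup (orSub g)) (A B al be T : ℕ → Γ) (tau : Γ) (q : Γ →* HG g),
      HRel (g - 3) A B al be T tau ∧
      ∀ i < g - 3, ((q (A i) : HG g) : Mod g) = modF g (sA g i) := by
  have c : Ctx g (g - 3) (g - 3 + 2) := ⟨by omega, le_refl _, by omega⟩
  have hrel := h_rel whyp c
  have hn : g - 3 + 2 = g - 1 := by omega
  rw [hn] at hrel
  obtain ⟨s1, s2, s3⟩ := t_A g hg
  let Γ : Subgroup (orSub g) :=
    Subgroup.closure (allH (g - 3) (sA g) (sB g) (sal g (g - 1)) (sbe g (g - 1))
      (fun i => sT g i (i + 1)) (stau g (g - 1)))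
  have hmem : ∀ x ∈ allH (g - 3) (sA g) (sB g) (sal g (g - 1)) (sbe g (g - 1))
      (fun i => sT g i (i + 1)) (stau g (g - 1)), x ∈ Γ := fun x hx => Subgroup.subset_closure hx
  classical
  let L : orSub g → Γ := fun x => if h : x ∈ Γ then ⟨x, h⟩ else 1
  have hL : ∀ x ∈ Γ, (L x : orSub g) = x := by
    intro x hx
    simp only [L]
    rw [dif_pos hx]
  have mA : ∀ i < g - 3, sA g i ∈ Γ := fun i hi => hmem _ (Or.inl ⟨i, hi, Or.inl rfl⟩)
  have mB : ∀ i < g - 3, sB g i ∈ Γ := fun i hi => hmem _ (Or.inl ⟨i, hi, Or.inr (Or.inl rfl)⟩)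
  have mal : ∀ i < g - 3, sal g (g - 1) i ∈ Γ :=
    fun i hi => hmem _ (Or.inl ⟨i, hi, Or.inr (Or.inr (Or.inl rfl))⟩)
  have mbe : ∀ i < g - 3, sbe g (g - 1) i ∈ Γ :=
    fun i hi => hmem _ (Or.inl ⟨i, hi, Or.inr (Or.inr (Or.inr rfl))⟩)
  have mT : ∀ i, i + 1 < g - 3 → sT g i (i + 1) ∈ Γ :=
    fun i hi => hmem _ (Or.inr (Or.inl ⟨i, hi, rfl⟩))
  have mtau : stau g (g - 1) ∈ Γ := hmem _ (Or.inr (Or.inr rfl))
  have hrel' : HRel (g - 3) (fun i => L (sA g i)) (fun i => L (sB g i))
      (fun i => L (sal g (g - 1) i))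
      (fun i => L (sbe g (g - 1) i)) (fun i => L (sT g i (i + 1))) (L (stau g (g - 1))) := by
    refine HRel.pull Γ.subtype Γ.subtype_injective ?_
    exact (hrel.congr (fun i hi => hL _ (mA i hi)) (fun i hi => hL _ (mB i hi))
      (fun i hi => hL _ (mal i hi)) (fun i hi => hL _ (mbe i hi))
      (fun i hi => hL _ (mT i hi))).tau_eq (hL _ mtau)
  have hG : ∀ x ∈ Γ, modF g x ∈ Humphries g := by
    intro x hx
    have hle : Γ ≤ (Humphries g).comap (modF g) := by
      apply (Subgroup.closure_le _).2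
      intro y hy
      show modF g y ∈ Humphries g
      rcases hy with ⟨i, hi, h | h | h | h⟩ | ⟨i, hi, h⟩ | h
      · rw [h]; exact (s1 i (by omega)).1
      · rw [h]; exact (s1 i (by omega)).2.1
      · rw [h]; exact (s1 i (by omega)).2.2.1
      · rw [h]; exact (s1 i (by omega)).2.2.2
      · rw [h]; exact s2 i (by omega)
      · have h' : y = stau g (g - 1) := h
        rw [h']; exact s3
    exact hle hx
  let q : Γ →* HG g := ((modF g).comp Γ.subtype).codRestrict (Humphries g) (fun x => hG x x.2)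
  refine ⟨Γ, _, _, _, _, _, _, q, hrel', ?_⟩
  intro i hi
  show modF g (L (sA g i) : orSub g) = _
  rw [hL _ (mA i hi)]

theorem twA {g m : ℕ} (hg : 7 ≤ g) (hm : m + 3 < g) :
    modF g (sA g m) = ((aM g m : HG g) : Mod g) := by
  rw [aM_coe (by omega) (by omega)]
  exact (twist_eq_at hm (by omega) _ (AA_twist (by omega))).symm

section
variable {g : ℕ} {K V : Type*} [Field K] [AddCommGroup V] [Module K V]

/-- products over two disjoint curves vanish: matrix version over an algebraically closed field -/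
theorem prod_alg [IsAlgClosed K] [FiniteDimensional K V] (hd : finrank K V < (g - 5).choose 2)
    (ρ : HG g →* Module.End K V) :
    (ρ (tM g 0) - 1) * (ρ (tM g 0) - 1) = 0 ∧ (ρ (aM g 1) - 1) * (ρ (tM g 0) - 1) = 0 := by
  have hg := seven_le hd
  have hp := pow_bound hd
  obtain ⟨Γ, A, B, al, be, T, tau, q, r, hA⟩ := setupM hg
  have hq : ∀ i < g - 3, q (A i) = aM g i := by
    intro i hi
    apply Subtype.ext
    rw [hA i hi, twA hg (by omega)]
  set ρ' := ρ.comp q with hρ
  have h0 : X ρ' r.commAA (Finset.range 2) = 0 := by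
    refine X_zero r _ (by omega) (by omega) ?_ ?_
    · rw [show g - 3 - 2 = g - 5 by omega]
      exact hd
    · rw [show g - 3 - 1 - 2 = g - 4 - 2 by omega]
      exact hp
  constructor
  · have h3 := unip_zero (mono (N' := 2 + 2) (by omega) r) (by omega) ρ' (by
      intro l hnd hl
      rw [X_list ρ' r.commAA (E := Finset.Ico 2 (2 + 2)) (fun i hi => by
        have := Finset.mem_Ico.1 hi; omega) hnd (fun i => by rw [hl, Finset.mem_Ico]),
        X_move r ρ' (fun i hi => by have := Finset.mem_Ico.1 hi; omega), Nat.card_Ico,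
        Nat.add_sub_cancel]
      exact h0)
    rw [Nat.add_sub_cancel, pow_two, hρ, MonoidHom.comp_apply, hq 0 (by omega)] at h3
    rw [tM_zero (by omega)]
    exact h3
  · have h4 := X_list ρ' r.commAA (E := {1, 0}) (by
      intro i hi
      simp only [Finset.mem_insert, Finset.mem_singleton] at hi
      omega) (l := [1, 0]) (by simp) (by intro i; simp)
    have h5 := (X_move (h := r.commAA) r ρ' (E := {1, 0}) (by
      intro i hi
      simp only [Finset.mem_insert, Finset.mem_singleton] at hi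
      omega)).2 (by
        rw [Finset.card_pair (by omega)]
        exact h0)
    rw [h5] at h4
    simp only [List.map_cons, List.map_nil, List.prod_cons, List.prod_nil, mul_one] at h4
    rw [hρ, MonoidHom.comp_apply, MonoidHom.comp_apply, hq 0 (by omega), hq 1 (by omega)] at h4
    rw [tM_zero (by omega)]
    exact h4

end

end Pool.Agent.E8helper34.MR
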