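import Mathlib
import Pool.Agent.E8helper34.MR.Set
import Pool.Agent.E8helper34.MC.Lin

set_option autoImplicit false

/-! Representations of Humphries' group of dimension less than `binom (g - 5) 2`. -/

namespace Pool.Agent.E8helper34.MR

open Pool.Agent.H29R2.MG Pool.Agent.TH35.MG Pool.Agent.R352.MG Pool.Agent.R665.MGR
  Pool.Agent.E8helper34.MC Module

section
variable {g : ℕ} {K V : Type*} [Field K] [AddCommGroup V] [Module K V]

theorem prod_zero [FiniteDimensional K V] (hd : finrank K V < (g - 5).choose 2)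
    (ρ : HG g →* Module.End K V) :
    (ρ (tM g 0) - 1) * (ρ (tM g 0) - 1) = 0 ∧ (ρ (aM g 1) - 1) * (ρ (tM g 0) - 1) = 0 := by
  classical
  let b := finBasis K V
  let Φ : Module.End K V →+* Module.End (AlgebraicClosure K)
      (Fin (finrank K V) → AlgebraicClosure K) :=
    (phi' (finrank K V) K).comp
      ((LinearMap.toMatrixAlgEquiv b : Module.End K V ≃ₐ[K] _) : Module.End K V →+* _)
  have hΦ : Function.Injective Φ := by
    intro x y h
    exact (LinearMap.toMatrixAlgEquiv b).injective (phi'_inj _ K h)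
  obtain ⟨h1, h2⟩ := prod_alg (g := g) (K := AlgebraicClosure K)
    (V := Fin (finrank K V) → AlgebraicClosure K) (by simpa using hd)
    ((Φ : Module.End K V →* _).comp ρ)
  constructor
  · apply hΦ
    rw [map_mul, map_sub, map_one, map_zero]
    exact h1
  · apply hΦ
    rw [map_mul, map_sub, map_sub, map_one, map_zero]
    exact h2

/-- the operators `t_j - 1` -/
def Nf (ρ : HG g →* Module.End K V) (j : ℕ) : Module.End K V := ρ (tM g j) - 1

/-- the operator `e - 1` -/
def Ef (ρ : HG g →* Module.End K V) : Module.End K V := ρ (aM g 1) - 1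

/-- The relations, as a hypothesis: they hold in dimension less than `binom (g - 5) 2`. -/
theorem relf [FiniteDimensional K V] (hd : finrank K V < (g - 5).choose 2)
    (ρ : HG g →* Module.End K V) : NRel (2 * g) (Nf ρ) (Ef ρ) := by
  have hg := seven_le hd
  obtain ⟨h1, h2⟩ := prod_zero hd ρ
  exact nrel (humM (by omega)) (by omega) ρ h1 h2

variable (ρ : HG g →* Module.End K V)

theorem rho_mul_apply (x y : HG g) (v : V) : ρ (x * y) v = ρ x (ρ y v) := by
  rw [map_mul, Module.End.mul_apply]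

theorem rho_one_apply (v : V) : ρ 1 v = v := by
  rw [map_one, Module.End.one_apply]

theorem rho_inv_apply (x : HG g) (v : V) : ρ x⁻¹ (ρ x v) = v := by
  rw [← rho_mul_apply, inv_mul_cancel, rho_one_apply]

theorem rho_apply_inv (x : HG g) (v : V) : ρ x (ρ x⁻¹ v) = v := by
  rw [← rho_mul_apply, mul_inv_cancel, rho_one_apply]

theorem rho_inj (x : HG g) : Function.Injective (ρ x) := by
  intro v v' h
  rw [← rho_inv_apply ρ x v, h, rho_inv_apply]

/-- equivariance of the homology basis `ub g w` modulo an invariant subspace -/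
theorem equiv_all (hg : 7 ≤ g) {W1 : Submodule K V} (hW1 : ∀ x, ∀ v ∈ W1, ρ x v ∈ W1)
    {w : ℕ → V} (r : RRel (2 * g) (Nf ρ) (Ef ρ) W1 w) (x : HG g) :
    ∃ φ : orientedAut g, classOf g φ = x ∧ ∀ y : SurfaceGroup g,
      ρ x (∑ i, (homologyClass y i : K) • ub g w i) -
        ∑ i, (homologyClass (φ.1 y) i : K) • ub g w i ∈ W1 := by
  have gen_eq : ∀ {F : Module.End K V} {z : V} {c : Fin g ⊕ Fin g → ℤ}
      (_ : GenRel W1 (ub g w) (F - 1) z c) (n : Fin g ⊕ Fin g → ℤ),
      F (∑ i, (n i : K) • ub g w i) - ∑ i, (tv c n i : K) • ub g w i ∈ W1 := by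
    intro F z c hG n
    have h1 := lin_mod (W1 := W1) (F - 1) (ub g w) (fun k => (n k : K)) (sf K c) z hG.rel
    rw [form_sum] at h1
    have e1 : ∑ i, (tv c n i : K) • ub g w i = ∑ i, (n i : K) • ub g w i -
        ((intersectionForm n c : ℤ) : K) • ∑ i, (c i : K) • ub g w i := by
      unfold tv
      rw [Finset.smul_sum, ← Finset.sum_sub_distrib]
      apply Finset.sum_congr rfl
      intro i _
      rw [smul_smul, ← sub_smul]
      congr 1
      simp
    have e : F (∑ i, (n i : K) • ub g w i) - ∑ i, (tv c n i : K) • ub g w i =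
        (F - 1) (∑ i, (n i : K) • ub g w i) + ((intersectionForm n c : ℤ) : K) • z := by
      rw [e1, hG.val, LinearMap.sub_apply, Module.End.one_apply]
      abel
    rw [e]
    exact h1
  induction x using HG_induction (g := g) (by omega) with
  | ht j hj =>
    rw [tM_coe]
    rcases Nat.even_or_odd' j with ⟨i, rfl | rfl⟩
    · refine ⟨_, (tt_lt hj).symm, ?_⟩
      intro y
      have h1 := gen_even r (⟨i, by omega⟩ : Fin g)
      have h2 := hc_even (⟨i, by omega⟩ : Fin g) y
      have h3 : ce (⟨i, by omega⟩ : Fin g) = homologyClass (mk g (ee (⟨i, by omega⟩ : Fin g))) := by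
        funext k
        rcases k with m | m
        · rw [ee_inl]; rfl
        · rw [ee_inr]; rfl
      rw [h3] at h1
      have h4 := gen_eq (F := ρ (tM g (2 * i))) h1 (homologyClass y)
      rw [← h2] at h4
      exact h4
    · refine ⟨_, (tt_lt hj).symm, ?_⟩
      intro y
      have h1 := gen_odd r (⟨i, by omega⟩ : Fin g)
      have h2 := hc_odd (⟨i, by omega⟩ : Fin g) y
      have h4 := gen_eq (F := ρ (tM g (2 * i + 1))) h1 (homologyClass y)
      rw [← h2] at h4
      exact h4
  | he =>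
    rw [aM_coe (by omega) (by omega)]
    obtain ⟨τ, hτ, h⟩ := AA_twist (g := g) (m := 1) (by omega)
    refine ⟨τ, hτ, ?_⟩
    intro y
    have h1 := gen_e r (⟨1, by omega⟩ : Fin g) rfl
    have h2 := hc_tau h (⟨1, by omega⟩ : Fin g) rfl y
    have h4 := gen_eq (F := ρ (aM g 1)) h1 (homologyClass y)
    rw [← h2] at h4
    exact h4
  | h1 =>
    refine ⟨1, rfl, ?_⟩
    intro y
    rw [rho_one_apply]
    have : ((1 : orientedAut g).1 : MulAut (SurfaceGroup g)) y = y := rfl
    rw [this, sub_self]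
    exact W1.zero_mem
  | hmul x x' h1 h2 =>
    obtain ⟨φ, hφ, h1⟩ := h1
    obtain ⟨φ', hφ', h2⟩ := h2
    refine ⟨φ * φ', by rw [Subgroup.coe_mul, ← hφ, ← hφ']; rfl, ?_⟩
    intro y
    have h3 := h1 (φ'.1 y)
    have h4 := hW1 x _ (h2 y)
    rw [map_sub] at h4
    have h5 := W1.add_mem h4 h3
    rw [sub_add_sub_cancel] at h5
    rw [rho_mul_apply]
    exact h5
  | hinv x h1 =>
    obtain ⟨φ, hφ, h1⟩ := h1
    refine ⟨φ⁻¹, by rw [InvMemClass.coe_inv, ← hφ]; rfl, ?_⟩
    intro y
    have h3 := h1 ((φ⁻¹).1 y)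
    have e1 : φ.1 ((φ⁻¹).1 y) = y := by
      rw [InvMemClass.coe_inv, MulAut.apply_inv_self]
    rw [e1] at h3
    have h4 := hW1 x⁻¹ _ h3
    rw [map_sub, rho_inv_apply] at h4
    have h5 := W1.neg_mem h4
    rwa [neg_sub] at h5

/-- the invariant vectors are fixed -/
theorem fixf (hg : 2 ≤ g) (x : HG g) : ∀ v ∈ Vinv (2 * g) (Nf ρ) (Ef ρ), ρ x v = v := by
  induction x using HG_induction hg with
  | ht j hj =>
    intro v hv
    exact sub_eq_zero.1 ((mem_Vinv.1 hv).1 j hj)
  | he =>
    intro v hv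
    exact sub_eq_zero.1 (mem_Vinv.1 hv).2
  | h1 => intro v _; exact rho_one_apply ρ v
  | hmul x y h1 h2 =>
    intro v hv
    rw [rho_mul_apply, h2 v hv, h1 v hv]
  | hinv x h1 =>
    intro v hv
    apply rho_inj ρ x
    rw [rho_apply_inv, h1 v hv]

theorem fix_mem {v : V} (h : ∀ x, ρ x v = v) : v ∈ Vinv (2 * g) (Nf ρ) (Ef ρ) := by
  rw [mem_Vinv]
  exact ⟨fun j _ => sub_eq_zero.2 (h _), sub_eq_zero.2 (h _)⟩

end

end Pool.Agent.E8helper34.MR
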