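import Mathlib
import Pool.Agent.E8helper34.MR.Hom

set_option autoImplicit false

/-! Extensions of the constituents split. -/

namespace Pool.Agent.E8helper34.MR

open Pool.Agent.H29R2.MG Pool.Agent.TH35.MG Pool.Agent.R352.MG Pool.Agent.R665.MGR
open Pool.Agent.E8helper34.MC (yy_mem ww_down ww_far ww_Efar zz zz_mem us_of US TA TA_step Zw Fw
  ww_mem_WW WW decomp rr_bot ww_zero_all N_Vinv)
open Module Matrix

section
variable {g : ℕ} {K V : Type*} [Field K] [AddCommGroup V] [Module K V]

/-- the action on the family `ub g w` -/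
theorem ub_act (hg : 7 ≤ g) (ρ : HG g →* Module.End K V) {w : ℕ → V}
    (r : RRel (2 * g) (Nf ρ) (Ef ρ) ⊥ w) (x : HG g) (l : Fin g ⊕ Fin g) :
    ρ x (ub g w l) = ∑ k, HR g K x k l • ub g w k := by
  obtain ⟨φ, h1, h2⟩ := equiv_all ρ hg (W1 := ⊥) (by
    intro x v hv
    rw [Submodule.mem_bot] at hv ⊢
    rw [hv, map_zero]) r x
  have h3 := h2 (gen l)
  rw [Submodule.mem_bot, sub_eq_zero, hc_gen] at h3
  have e1 : ∑ i, (((Pi.single l 1 : Fin g ⊕ Fin g → ℤ) i : ℤ) : K) • ub g w i = ub g w l := by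
    rw [Finset.sum_eq_single l]
    · simp
    · intro b _ hb
      rw [Pi.single_eq_of_ne hb]
      simp
    · intro h; exact absurd (Finset.mem_univ _) h
  rw [e1] at h3
  rw [h3]
  apply Finset.sum_congr rfl
  intro k _
  rw [HR_apply, HM_class h1]
  rfl

/-- equivariant maps commute with the construction of the vectors `w_j` -/
theorem map_ww {V' : Type*} [AddCommGroup V'] [Module K V'] {N : ℕ → Module.End K V}
    {N' : ℕ → Module.End K V'} (q : V →ₗ[K] V') (h : ∀ j v, q (N j v) = N' j (q v)) (y : V)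
    (j : ℕ) : q (ww N y j) = ww N' (q y) j := by
  have h1 : ∀ j, q (yy N y j) = yy N' (q y) j := by
    intro j
    induction j with
    | zero => rfl
    | succ j ih =>
      show q (- N j (yy N y j)) = - N' j (yy N' (q y) j)
      rw [map_neg, h, ih]
  unfold ww
  rw [h, h1]

theorem map_ub {V' : Type*} [AddCommGroup V'] [Module K V'] (q : V →ₗ[K] V') (w : ℕ → V)
    (w' : ℕ → V') (h : ∀ j < 2 * g, q (w j) = w' j) (k : Fin g ⊕ Fin g) :
    q (ub g w k) = ub g w' k := by
  have h1 : ∀ m, m < g → q (uu w m) = uu w' m := by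
    intro m
    induction m with
    | zero => intro hm; exact h 0 (by omega)
    | succ m ih =>
      intro hm
      show q (uu w m + w (2 * m + 2)) = uu w' m + w' (2 * m + 2)
      rw [map_add, ih (by omega), h _ (by omega)]
  rcases k with m | m
  · exact h1 m m.2
  · exact h _ (by omega)

end

section block
variable {g : ℕ} {K : Type*} [Field K] {m m' : Type*} [Fintype m] [Fintype m'] [DecidableEq m]
  [DecidableEq m']

/-- the representation by matrices as a representation by endomorphisms -/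
noncomputable def toE (f : HG g →* Matrix m m K) : HG g →* Module.End K (m → K) where
  toFun x := Matrix.toLinAlgEquiv' (f x)
  map_one' := by rw [map_one, map_one]
  map_mul' x y := by rw [map_mul, map_mul]

theorem toE_apply (f : HG g →* Matrix m m K) (x : HG g) (v : m → K) : toE f x v = f x *ᵥ v :=
  Matrix.toLinAlgEquiv'_apply _ _

/-- the block representation -/
def blk (S : HG g →* Matrix m m K) (S' : HG g →* Matrix m' m' K) (c : HG g → Matrix m m' K)
    (hc : ∀ x y, c (x * y) = S x * c y + c x * S' y) : HG g →* Matrix (m ⊕ m') (m ⊕ m') K where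
  toFun x := Matrix.fromBlocks (S x) (c x) 0 (S' x)
  map_one' := by
    have h := hc 1 1
    rw [mul_one, map_one, map_one, Matrix.one_mul, Matrix.mul_one] at h
    have h1 : c 1 = 0 := by
      have h2 : c 1 + 0 = c 1 + c 1 := by rw [add_zero]; exact h
      exact (add_left_cancel h2).symm
    rw [h1, map_one, map_one, Matrix.fromBlocks_one]
  map_mul' x y := by
    rw [Matrix.fromBlocks_multiply, hc, map_mul, map_mul]
    simp

variable (S : HG g →* Matrix m m K) (S' : HG g →* Matrix m' m' K) (c : HG g → Matrix m m' K)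
    (hc : ∀ x y, c (x * y) = S x * c y + c x * S' y)

/-- the projection -/
def prj (K m m' : Type*) [Field K] : (m ⊕ m' → K) →ₗ[K] (m' → K) :=
  LinearMap.funLeft K K Sum.inr

theorem prj_blk (x : HG g) (v : m ⊕ m' → K) :
    prj K m m' (toE (blk S S' c hc) x v) = S' x *ᵥ (prj K m m' v) := by
  rw [toE_apply]
  show (fun i => (Matrix.fromBlocks (S x) (c x) 0 (S' x) *ᵥ v) (Sum.inr i)) = _
  rw [Matrix.fromBlocks_mulVec]
  funext i
  simp only [Sum.elim_inr, Matrix.zero_mulVec, Pi.add_apply, Pi.zero_apply, zero_add]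
  rfl

theorem fst_blk (x : HG g) (v : m ⊕ m' → K) (i : m) :
    (toE (blk S S' c hc) x v) (Sum.inl i) =
      (S x *ᵥ (v ∘ Sum.inl)) i + (c x *ᵥ (prj K m m' v)) i := by
  rw [toE_apply]
  show (Matrix.fromBlocks (S x) (c x) 0 (S' x) *ᵥ v) (Sum.inl i) = _
  rw [Matrix.fromBlocks_mulVec]
  rfl

theorem prj_N (j : ℕ) (v : m ⊕ m' → K) :
    prj K m m' (Nf (toE (blk S S' c hc)) j v) = Nf (toE S') j (prj K m m' v) := by
  show prj K m m' (toE (blk S S' c hc) (tM g j) v - v) =
    toE S' (tM g j) (prj K m m' v) - prj K m m' v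
  rw [map_sub, prj_blk, toE_apply]

/-- extensions of the trivial representation split -/
theorem sec1 {S : HG g →* Matrix m m K} {c : HG g → Matrix m Unit K}
    (hc : ∀ x y, c (x * y) = S x * c y + c x * (1 : HG g →* Matrix Unit Unit K) y)
    (hd : Fintype.card m + 1 < (g - 5).choose 2) (hK : ((2 * g - 2 : ℕ) : K) ≠ 0) :
    ∃ D : Matrix m Unit K, ∀ x, c x = D * (1 : HG g →* Matrix Unit Unit K) x - S x * D := by
  classical
  set ρ := toE (blk S (1 : HG g →* Matrix Unit Unit K) c hc) with hρ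
  have hd' : finrank K (m ⊕ Unit → K) < (g - 5).choose 2 := by
    rw [finrank_fintype_fun_eq_card, Fintype.card_sum, Fintype.card_unit]
    exact hd
  set v : m ⊕ Unit → K := Sum.elim 0 1 with hv
  obtain ⟨w, hw, h1⟩ := decompf ρ hd' hK v
  have hqw : prj K m Unit w = 0 := by
    have hle : WW (2 * g) (Nf ρ) (Ef ρ) ≤ LinearMap.ker (prj K m Unit) := by
      apply Submodule.span_le.2
      rintro _ ⟨y, _, j, _, rfl⟩
      show prj K m Unit (Nf ρ j _) = 0
      rw [hρ, prj_N]
      show toE (1 : HG g →* Matrix Unit Unit K) (tM g j) (prj K m Unit (yy (Nf ρ) y j)) -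
        prj K m Unit (yy (Nf ρ) y j) = _
      rw [toE_apply, MonoidHom.one_apply, Matrix.one_mulVec, sub_self]
    exact hle hw
  have hfix := fun x => fixf ρ (by have := seven_le hd'; omega) x _ h1
  refine ⟨Matrix.of fun i _ => (v - w) (Sum.inl i), ?_⟩
  intro x
  ext i u
  have h2 := congrFun (hfix x) (Sum.inl i)
  rw [hρ, fst_blk, map_sub, hqw, sub_zero] at h2
  have h3 : (c x *ᵥ (prj K m Unit v)) i = c x i u := by
    simp [Matrix.mulVec, dotProduct, prj, LinearMap.funLeft, hv]
  rw [h3] at h2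
  have h4 : (S x *ᵥ ((v - w) ∘ Sum.inl)) i =
      (S x * Matrix.of fun i (_ : Unit) => (v - w) (Sum.inl i)) i u := rfl
  rw [h4] at h2
  rw [MonoidHom.one_apply, Matrix.mul_one, Matrix.sub_apply, eq_sub_iff_add_eq, add_comm]
  exact h2

/-- extensions of the homology split -/
theorem secH {S : HG g →* Matrix m m K} {c : HG g → Matrix m (Fin g ⊕ Fin g) K}
    (hc : ∀ x y, c (x * y) = S x * c y + c x * HR g K y)
    (hd : Fintype.card m + 2 * g < (g - 5).choose 2) (hK : ((2 * g - 2 : ℕ) : K) ≠ 0) :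
    ∃ D : Matrix m (Fin g ⊕ Fin g) K, ∀ x, c x = D * HR g K x - S x * D := by
  classical
  set ρ := toE (blk S (HR g K) c hc) with hρ
  have hd' : finrank K (m ⊕ (Fin g ⊕ Fin g) → K) < (g - 5).choose 2 := by
    rw [finrank_fintype_fun_eq_card, Fintype.card_sum, Fintype.card_sum, Fintype.card_fin]
    omega
  have hg := seven_le hd'
  have r := relf hd' ρ
  set q := prj K m (Fin g ⊕ Fin g) with hq
  have hqN : ∀ j v, q (Nf ρ j v) = Nf (toE (HR g K)) j (q v) := fun j v => by
    rw [hρ, hq, prj_N]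
  -- the operators on the homology
  have n1 : Nf (toE (HR g K)) 1 (cl K g 0) = - cl K g 1 := by
    show toE (HR g K) (tM g 1) (cl K g 0) - cl K g 0 = _
    rw [toE_apply, up_cl (j := 0) (by omega)]
    abel
  set u : m ⊕ (Fin g ⊕ Fin g) → K := Sum.elim 0 (cl K g 0) with hu
  have hqu : q u = cl K g 0 := rfl
  set y := Nf ρ 1 (-u) with hy
  have hyV : y ∈ Vim (2 * g) (Nf ρ) (Ef ρ) := N_mem_Vim (by omega) _
  have hqy : q y = cl K g 1 := by
    rw [hy, hqN, map_neg, map_neg, hqu, n1, neg_neg]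
  have hww : ∀ j < 2 * g, ww (Nf (toE (HR g K))) (cl K g 1) j = cl K g j := by
    intro j
    induction j with
    | zero =>
      intro _
      show toE (HR g K) (tM g 0) (cl K g 1) - cl K g 1 = _
      rw [toE_apply, zero_cl (by omega)]
      show cl K g 1 + cl K g 0 - cl K g 1 = _
      abel
    | succ j ih =>
      intro hj
      have h1 := ww_succ (N := Nf (toE (HR g K))) (cl K g 1) j
      rw [ih (by omega)] at h1
      have h2 : Nf (toE (HR g K)) (j + 1) (cl K g j) = - cl K g (j + 1) := by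
        show toE (HR g K) (tM g (j + 1)) (cl K g j) - cl K g j = _
        rw [toE_apply, up_cl hj]
        abel
      rw [h2] at h1
      exact (neg_injective h1).symm
  have rr : RRel (2 * g) (Nf ρ) (Ef ρ) ⊥ (ww (Nf ρ) y) :=
    rr_bot r (by omega) hyV (zz_zero hg ρ r hK hyV)
  have hact := ub_act hg ρ rr
  have hqs : ∀ l, q (ub g (ww (Nf ρ) y) l) = Pi.single l 1 := by
    intro l
    rw [map_ub q _ (cl K g) (fun j hj => by rw [map_ww q hqN, hqy, hww j hj]), ub_cl]
  refine ⟨Matrix.of fun i l => ub g (ww (Nf ρ) y) l (Sum.inl i), ?_⟩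
  intro x
  ext i l
  have h2 := congrFun (hact x l) (Sum.inl i)
  rw [hρ, fst_blk, ← hρ, ← hq, hqs, Matrix.mulVec_single_one] at h2
  have h4 : (S x *ᵥ (ub g (ww (Nf ρ) y) l ∘ Sum.inl)) i =
      (S x * Matrix.of fun i l => ub g (ww (Nf ρ) y) l (Sum.inl i)) i l := rfl
  have h5 : (∑ k, HR g K x k l • ub g (ww (Nf ρ) y) k) (Sum.inl i) =
      ((Matrix.of fun i l => ub g (ww (Nf ρ) y) l (Sum.inl i)) * HR g K x) i l := by
    rw [Finset.sum_apply, Matrix.mul_apply]
    apply Finset.sum_congr rfl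
    intro k _
    rw [Pi.smul_apply, smul_eq_mul, mul_comm]
    rfl
  rw [h4, h5] at h2
  rw [Matrix.sub_apply, eq_sub_iff_add_eq, add_comm]
  exact h2

end block

end Pool.Agent.E8helper34.MR
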