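import Mathlib
import Pool.Agent.E8helper34.MR.Std
import Pool.Agent.E8helper34.MC.Fin

set_option autoImplicit false

/-! The classification over fields. -/

namespace Pool.Agent.E8helper34.MR

open Pool.Agent.H29R2.MG Pool.Agent.TH35.MG Pool.Agent.R352.MG Pool.Agent.R665.MGR
open Pool.Agent.E8helper34.MC (yy_mem ww_down ww_far ww_Efar zz zz_mem us_of US TA TA_step Zw Fw
  ww_mem_WW WW decomp rr_bot ww_zero_all N_Vinv ubL_apply wwL wwL_apply N0_zero ww_span)
open Module Matrix

section
variable {g : ℕ} {K V : Type*} [Field K] [AddCommGroup V] [Module K V] [FiniteDimensional K V]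

/-- the classification -/
theorem classification (hd : finrank K V < (g - 5).choose 2) (hK : ((2 * g - 2 : ℕ) : K) ≠ 0)
    (ρ : HG g →* Module.End K V) :
    ∃ (a b : ℕ) (B : Basis (Ix g a b) K V), ∀ x : HG g,
      (∀ (i : Fin a) (l : Fin g ⊕ Fin g),
        ρ x (B (Sum.inl (i, l))) = ∑ k, HR g K x k l • B (Sum.inl (i, k))) ∧
        ∀ j : Fin b, ρ x (B (Sum.inr j)) = B (Sum.inr j) := by
  classical
  have hg := seven_le hd
  have r := relf hd ρ
  have hn : 6 ≤ 2 * g := by omega
  have hz : ∀ y ∈ Vim (2 * g) (Nf ρ) (Ef ρ), zz (Nf ρ) (Ef ρ) y = 0 :=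
    fun _ hy => zz_zero hg ρ r hK hy
  set S := (Vim (2 * g) (Nf ρ) (Ef ρ)).map (Nf ρ 0) with hS
  set a := finrank K S with ha
  set b := finrank K (Vinv (2 * g) (Nf ρ) (Ef ρ)) with hb
  let bS : Basis (Fin a) K S := finBasis K S
  let bV : Basis (Fin b) K (Vinv (2 * g) (Nf ρ) (Ef ρ)) := finBasis K _
  have hy : ∀ i : Fin a, ∃ y ∈ Vim (2 * g) (Nf ρ) (Ef ρ), Nf ρ 0 y = bS i := by
    intro i
    exact (Submodule.mem_map).1 (bS i).2
  choose y hyV hy0 using hy
  let e : Fin a × (Fin g ⊕ Fin g) → V := fun p => ub g (ww (Nf ρ) (y p.1)) p.2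
  let c : Fin b → V := fun j => (bV j : V)
  -- the key independence
  have key : ∀ s : Fin a × (Fin g ⊕ Fin g) → K,
      ∑ p, s p • e p ∈ Vinv (2 * g) (Nf ρ) (Ef ρ) → s = 0 := by
    intro s hs
    let Y : Fin g ⊕ Fin g → V := fun k => ∑ i, s (i, k) • y i
    have hY : ∀ k, Y k ∈ Vim (2 * g) (Nf ρ) (Ef ρ) := fun k =>
      Submodule.sum_mem _ fun i _ => Submodule.smul_mem _ _ (hyV i)
    have e1 : ∑ p, s p • e p = ∑ k, ub g (ww (Nf ρ) (Y k)) k := by
      rw [Fintype.sum_prod_type, Finset.sum_comm]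
      apply Finset.sum_congr rfl
      intro k _
      rw [← ubL_apply, map_sum]
      apply Finset.sum_congr rfl
      intro i _
      rw [map_smul, ubL_apply]
    rw [e1] at hs
    have h0 := N0_zero (by omega) r hz Y hY hs
    funext p
    obtain ⟨i, k⟩ := p
    have h1 := h0 k
    have h2 : ∑ i, s (i, k) • bS i = 0 := by
      apply Subtype.ext
      rw [Submodule.coe_sum, Submodule.coe_zero, ← h1, map_sum]
      apply Finset.sum_congr rfl
      intro i _
      rw [Submodule.coe_smul, map_smul, hy0]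
    exact (Fintype.linearIndependent_iff.1 bS.linearIndependent) (fun i => s (i, k)) h2 i
  have hli : LinearIndependent K (Sum.elim e c) := by
    apply LinearIndependent.sum_type
    · rw [Fintype.linearIndependent_iff]
      intro s hs p
      have h1 := key s (by rw [hs]; exact Submodule.zero_mem _)
      rw [h1]; rfl
    · exact bV.linearIndependent.map' (Submodule.subtype _) (Submodule.ker_subtype _)
    · rw [Submodule.disjoint_def]
      intro x hx1 hx2
      obtain ⟨s, rfl⟩ := (Submodule.mem_span_range_iff_exists_fun K).1 hx1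
      have h1 : ∑ p, s p • e p ∈ Vinv (2 * g) (Nf ρ) (Ef ρ) := by
        refine Submodule.span_le.2 ?_ hx2
        rintro _ ⟨j, rfl⟩
        exact (bV j).2
      rw [key s h1]
      simp
  have hsp : ⊤ ≤ Submodule.span K (Set.range (Sum.elim e c)) := by
    intro v _
    obtain ⟨w, hw, h1⟩ := decompf ρ hd hK v
    have hW : WW (2 * g) (Nf ρ) (Ef ρ) ≤ Submodule.span K (Set.range (Sum.elim e c)) := by
      apply Submodule.span_le.2
      rintro _ ⟨y', hy', j, hj, rfl⟩
      have h2 : Nf ρ 0 y' ∈ S := Submodule.mem_map_of_mem hy'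
      have h3 := bS.sum_repr ⟨_, h2⟩
      have h4 : Nf ρ 0 y' = Nf ρ 0 (∑ i, bS.repr ⟨_, h2⟩ i • y i) := by
        have h5 := congrArg Subtype.val h3
        rw [Submodule.coe_sum] at h5
        rw [map_sum]
        refine h5.symm.trans ?_
        apply Finset.sum_congr rfl
        intro i _
        rw [Submodule.coe_smul, map_smul, hy0]
      rw [SetLike.mem_coe, ww_eq_of_zero ρ h4, ← wwL_apply, map_sum]
      apply Submodule.sum_mem
      intro i _
      rw [map_smul, wwL_apply]
      apply Submodule.smul_mem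
      refine Submodule.span_mono ?_ (ww_span (y i) hj)
      rintro _ ⟨k, rfl⟩
      exact ⟨Sum.inl (i, k), rfl⟩
    have hV : Vinv (2 * g) (Nf ρ) (Ef ρ) ≤ Submodule.span K (Set.range (Sum.elim e c)) := by
      intro x hx
      have h3 := congrArg Subtype.val (bV.sum_repr ⟨x, hx⟩)
      rw [Submodule.coe_sum] at h3
      have h3' : ∑ i, ((bV.repr ⟨x, hx⟩ i • bV i : Vinv (2 * g) (Nf ρ) (Ef ρ)) : V) = x :=
        h3
      rw [← h3']
      apply Submodule.sum_mem
      intro i _
      rw [Submodule.coe_smul]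
      apply Submodule.smul_mem
      exact Submodule.subset_span ⟨Sum.inr i, rfl⟩
    have h2 := Submodule.add_mem _ (hW hw) (hV h1)
    rwa [add_sub_cancel] at h2
  refine ⟨a, b, Basis.mk hli hsp, ?_⟩
  intro x
  have hB : ∀ p, (Basis.mk hli hsp) p = Sum.elim e c p := fun p => Basis.mk_apply _ _ _
  refine ⟨?_, ?_⟩
  · intro i l
    have rr : RRel (2 * g) (Nf ρ) (Ef ρ) ⊥ (ww (Nf ρ) (y i)) :=
      rr_bot r hn (hyV i) (hz _ (hyV i))
    simp only [hB]
    exact ub_act hg ρ rr x l
  · intro j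
    rw [hB]
    exact fixf ρ (by omega) x _ (bV j).2

end

/-- the matrix version -/
theorem classM {g d : ℕ} {K : Type*} [Field K] (hd : d < (g - 5).choose 2)
    (hK : ((2 * g - 2 : ℕ) : K) ≠ 0) (f : HG g →* Matrix (Fin d) (Fin d) K) :
    ∃ (a b : ℕ) (Q : Matrix (Fin d) (Ix g a b) K) (P : Matrix (Ix g a b) (Fin d) K),
      P * Q = 1 ∧ Q * P = 1 ∧ ∀ x, f x * Q = Q * Std a b K x := by
  classical
  obtain ⟨a, b, B, h⟩ := classification (g := g) (K := K) (V := Fin d → K)
    (by rw [finrank_fin_fun]; exact hd) hK (toE f)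
  refine ⟨a, b, (Pi.basisFun K (Fin d)).toMatrix B, B.toMatrix (Pi.basisFun K (Fin d)),
    Basis.toMatrix_mul_toMatrix_flip _ _, Basis.toMatrix_mul_toMatrix_flip _ _, ?_⟩
  intro x
  have e : ∀ s p, (Pi.basisFun K (Fin d)).toMatrix B s p = B p s := by
    intro s p
    rw [Basis.toMatrix_apply, Pi.basisFun_repr]
  ext s q
  have e1 : (f x * (Pi.basisFun K (Fin d)).toMatrix B) s q = (toE f x (B q)) s := by
    rw [toE_apply, Matrix.mul_apply]
    simp only [e]
    rfl
  rw [e1]
  rcases q with ⟨i, l⟩ | j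
  · rw [(h x).1, mul_Std_l, Finset.sum_apply]
    apply Finset.sum_congr rfl
    intro k _
    rw [e, Pi.smul_apply, smul_eq_mul, mul_comm]
  · rw [(h x).2, mul_Std_r, e]

end Pool.Agent.E8helper34.MR
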