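import Mathlib
import Pool.Agent.E8helper34.MR.Cls

set_option autoImplicit false

/-! Lifting the conjugacy with a standard representation along small extensions. -/

namespace Pool.Agent.E8helper34.MR

open Pool.Agent.H29R2.MG Pool.Agent.TH35.MG Pool.Agent.R352.MG Pool.Agent.R665.MGR
open Module Matrix

/-- `f` is conjugate to `a` copies of the homology and `b` trivial representations -/
def Conj {g d : ℕ} {R : Type*} [CommRing R] (a b : ℕ)
    (f : HG g →* Matrix (Fin d) (Fin d) R) : Prop :=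
  ∃ (Q : Matrix (Fin d) (Ix g a b) R) (P : Matrix (Ix g a b) (Fin d) R),
    P * Q = 1 ∧ Q * P = 1 ∧ ∀ x, f x * Q = Q * Std a b R x

/-- change of rings -/
def chg {g d : ℕ} {R S : Type*} [CommRing R] [CommRing S] (π : R →+* S)
    (f : HG g →* Matrix (Fin d) (Fin d) R) : HG g →* Matrix (Fin d) (Fin d) S :=
  ((π.mapMatrix : Matrix (Fin d) (Fin d) R →+* Matrix (Fin d) (Fin d) S) : _ →* _).comp f

theorem chg_apply {g d : ℕ} {R S : Type*} [CommRing R] [CommRing S] (π : R →+* S)
    (f : HG g →* Matrix (Fin d) (Fin d) R) (x : HG g) : chg π f x = (f x).map π := rfl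

section lift
variable {A A' : Type*} [CommRing A] [CommRing A'] {m n : Type*} {π : A →+* A'} {j : A}

theorem exists_lift (hπ : Function.Surjective π) (X : Matrix m n A') :
    ∃ Y : Matrix m n A, Y.map π = X := by
  refine ⟨X.map (Function.surjInv hπ), ?_⟩
  ext i k
  rw [Matrix.map_apply, Matrix.map_apply, Function.surjInv_eq hπ]

theorem exists_div (hker : ∀ x, π x = 0 → ∃ y, x = j * y) (X : Matrix m n A)
    (h : X.map π = 0) : ∃ Y : Matrix m n A, X = j • Y := by
  have h1 : ∀ i k, ∃ y, X i k = j * y := fun i k => hker _ (congrFun (congrFun h i) k)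
  choose y hy using h1
  exact ⟨Matrix.of y, by ext i k; exact hy i k⟩

theorem map_sub' (X Y : Matrix m n A) : (X - Y).map π = X.map π - Y.map π :=
  Matrix.map_sub _ (map_sub π) _ _

theorem map_add' (X Y : Matrix m n A) : (X + Y).map π = X.map π + Y.map π :=
  Matrix.map_add _ (map_add π) _ _

theorem map_smul' (h : π j = 0) (X : Matrix m n A) : (j • X).map π = 0 := by
  ext i k
  show π (j * X i k) = 0
  rw [map_mul, h, zero_mul]

end lift

/-- lifting along a small extension -/
theorem step {g d a b : ℕ} {A A' k : Type*} [CommRing A] [CommRing A'] [Field k]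
    (π : A →+* A') (κ : A →+* k) (hπ : Function.Surjective π) (hκ : Function.Surjective κ)
    (j : A) (hπj : π j = 0) (hker : ∀ x, π x = 0 → ∃ y, x = j * y) (hj : κ j = 0)
    (hann : ∀ x, κ x = 0 → j * x = 0) (hd : 4 * g < (g - 5).choose 2)
    (hK : ((2 * g - 2 : ℕ) : k) ≠ 0) (f : HG g →* Matrix (Fin d) (Fin d) A)
    (h : Conj a b (chg π f)) : Conj a b f := by
  classical
  obtain ⟨Q', P', h1, h2, h3⟩ := h
  obtain ⟨Q₀, rfl⟩ := exists_lift hπ Q'
  obtain ⟨P₀, rfl⟩ := exists_lift hπ P'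
  have hjj : j * j = 0 := hann j hj
  have hone : ∀ {n : Type} [Fintype n] [DecidableEq n], (1 : Matrix n n A).map π = 1 := by
    intro n _ _
    exact Matrix.map_one _ (map_zero π) (map_one π)
  obtain ⟨Z, hZ⟩ := exists_div hker (P₀ * Q₀ - 1) (by
    rw [map_sub', Matrix.map_mul, h1, hone, sub_self])
  obtain ⟨Z', hZ'⟩ := exists_div hker (Q₀ * P₀ - 1) (by
    rw [map_sub', Matrix.map_mul, h2, hone, sub_self])
  rw [sub_eq_iff_eq_add] at hZ hZ'
  -- the inverse
  set P₁ := P₀ - j • (Z * P₀) with hP₁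
  have p1 : P₁ * Q₀ = 1 := by
    rw [hP₁, Matrix.sub_mul, Matrix.smul_mul, Matrix.mul_assoc, hZ, Matrix.mul_add,
      Matrix.mul_smul, smul_add, smul_smul, hjj, zero_smul, zero_add, Matrix.mul_one]
    abel
  have p2 : Q₀ * (P₀ - j • (P₀ * Z')) = 1 := by
    rw [Matrix.mul_sub, Matrix.mul_smul, ← Matrix.mul_assoc, hZ', Matrix.add_mul,
      Matrix.smul_mul, smul_add, smul_smul, hjj, zero_smul, zero_add, Matrix.one_mul]
    abel
  have p3 : P₁ = P₀ - j • (P₀ * Z') := by
    calc P₁ = P₁ * (Q₀ * (P₀ - j • (P₀ * Z'))) := by rw [p2, Matrix.mul_one]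
      _ = P₁ * Q₀ * (P₀ - j • (P₀ * Z')) := (Matrix.mul_assoc _ _ _).symm
      _ = _ := by rw [p1, Matrix.one_mul]
  have p4 : Q₀ * P₁ = 1 := by rw [p3]; exact p2
  have p5 : P₁.map π = P₀.map π := by
    rw [hP₁, map_sub', map_smul' hπj, sub_zero]
  -- the conjugated representation
  set F : HG g → Matrix (Ix g a b) (Ix g a b) A := fun x => P₁ * (f x * Q₀) with hF
  have hFm : ∀ x y, F (x * y) = F x * F y := by
    intro x y
    show P₁ * (f (x * y) * Q₀) = P₁ * (f x * Q₀) * (P₁ * (f y * Q₀))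
    calc P₁ * (f (x * y) * Q₀) = P₁ * (f x * ((Q₀ * P₁) * (f y * Q₀))) := by
          rw [p4, Matrix.one_mul, map_mul, Matrix.mul_assoc]
      _ = _ := by simp only [Matrix.mul_assoc]
  have hFπ : ∀ x, ∃ Y, F x = j • Y + Std a b A x := by
    intro x
    obtain ⟨Y, hY⟩ := exists_div hker (F x - Std a b A x) (by
      rw [map_sub', Std_map, sub_eq_zero]
      show (P₁ * (f x * Q₀)).map π = _
      rw [Matrix.map_mul, Matrix.map_mul, p5, ← chg_apply, h3, ← Matrix.mul_assoc, h1,
        Matrix.one_mul])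
    exact ⟨Y, by rw [← hY, sub_add_cancel]⟩
  choose δ hδ using hFπ
  have hder : ∀ x y, j • (δ (x * y) - (Std a b A x * δ y + δ x * Std a b A y)) = 0 := by
    intro x y
    have e := hFm x y
    rw [hδ, hδ, hδ, map_mul, Matrix.mul_add, Matrix.add_mul, Matrix.add_mul, Matrix.smul_mul,
      Matrix.mul_smul, smul_smul, hjj, zero_smul, Matrix.mul_smul, Matrix.smul_mul, zero_add,
      ← add_assoc] at e
    have e2 := add_right_cancel e
    rw [smul_sub, smul_add, e2]
    abel
  have hD : ∃ D : Matrix (Ix g a b) (Ix g a b) A, ∀ x,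
      j • δ x = j • (D * Std a b A x - Std a b A x * D) := by
    by_cases hj0 : j = 0
    · exact ⟨0, fun x => by rw [hj0, zero_smul, zero_smul]⟩
    · have hreg : ∀ z, j * z = 0 → κ z = 0 := by
        intro z hz
        by_contra hne
        obtain ⟨w, hw⟩ := hκ (κ z)⁻¹
        have h5 := hann (z * w - 1) (by rw [map_sub, map_mul, hw, map_one,
          mul_inv_cancel₀ hne, sub_self])
        rw [mul_sub, mul_one, ← mul_assoc, hz, zero_mul, zero_sub, neg_eq_zero] at h5
        exact hj0 h5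
      obtain ⟨D', hD'⟩ := inner_Std (g := g) (a := a) (b := b) hd hK
        (fun x => (δ x).map κ) (by
          intro x y
          have h5 : (δ (x * y) - (Std a b A x * δ y + δ x * Std a b A y)).map κ = 0 := by
            ext p q
            exact hreg _ (congrFun (congrFun (hder x y) p) q)
          rw [map_sub', map_add', Matrix.map_mul, Matrix.map_mul, Std_map, Std_map,
            sub_eq_zero] at h5
          exact h5)
      obtain ⟨D, rfl⟩ := exists_lift hκ D'
      refine ⟨D, ?_⟩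
      intro x
      have h5 : (δ x - (D * Std a b A x - Std a b A x * D)).map κ = 0 := by
        rw [map_sub', map_sub', Matrix.map_mul, Matrix.map_mul, Std_map, sub_eq_zero]
        exact hD' x
      rw [← sub_eq_zero, ← smul_sub]
      ext p q
      exact hann _ (congrFun (congrFun h5 p) q)
  obtain ⟨D, hD⟩ := hD
  have hNN : (j • D) * (j • D) = 0 := by
    rw [Matrix.smul_mul, Matrix.mul_smul, smul_smul, hjj, zero_smul]
  have u : ∀ N : Matrix (Ix g a b) (Ix g a b) A, N * N = 0 →
      (1 - N) * (1 + N) = 1 ∧ (1 + N) * (1 - N) = 1 := by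
    intro N hN
    have e1 : (1 - N) * (1 + N) = 1 - N * N := by noncomm_ring
    have e2 : (1 + N) * (1 - N) = 1 - N * N := by noncomm_ring
    rw [e1, e2, hN, sub_zero]
    exact ⟨rfl, rfl⟩
  obtain ⟨u1, u2⟩ := u _ hNN
  refine ⟨Q₀ * (1 + j • D), (1 - j • D) * P₁, ?_, ?_, ?_⟩
  · calc (1 - j • D) * P₁ * (Q₀ * (1 + j • D)) = (1 - j • D) * ((P₁ * Q₀) * (1 + j • D)) := by
          simp only [Matrix.mul_assoc]
      _ = 1 := by rw [p1, Matrix.one_mul, u1]
  · calc Q₀ * (1 + j • D) * ((1 - j • D) * P₁) = Q₀ * (((1 + j • D) * (1 - j • D)) * P₁) := by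
          simp only [Matrix.mul_assoc]
      _ = 1 := by rw [u2, Matrix.one_mul, p4]
  · intro x
    have e1 : f x * Q₀ = Q₀ * F x := by
      show _ = Q₀ * (P₁ * (f x * Q₀))
      rw [← Matrix.mul_assoc Q₀, p4, Matrix.one_mul]
    have e2 : F x * (1 + j • D) = (1 + j • D) * Std a b A x := by
      rw [hδ, hD, Matrix.mul_add, Matrix.mul_one, Matrix.add_mul, Matrix.mul_smul,
        Matrix.smul_mul, smul_smul, hjj, zero_smul, zero_add, Matrix.mul_smul, Matrix.add_mul,
        Matrix.one_mul, Matrix.smul_mul, smul_sub]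
      abel
    rw [← Matrix.mul_assoc, e1, Matrix.mul_assoc, e2, ← Matrix.mul_assoc]

end Pool.Agent.E8helper34.MR
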