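import Mathlib
import Pool.Agent.E8helper34.MR.Step

set_option autoImplicit false

/-! Representations over Noetherian rings modulo powers of a maximal ideal. -/

namespace Pool.Agent.E8helper34.MR

open Pool.Agent.H29R2.MG Pool.Agent.TH35.MG Pool.Agent.R352.MG Pool.Agent.R665.MGR
open Module Matrix

theorem chg_chg {g d : ℕ} {R S T : Type*} [CommRing R] [CommRing S] [CommRing T] (ρ : R →+* S)
    (π : S →+* T) (f : HG g →* Matrix (Fin d) (Fin d) R) :
    chg π (chg ρ f) = chg (π.comp ρ) f := by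
  ext x i j
  rfl

section
variable {g d : ℕ} {R k : Type*} [CommRing R] [IsNoetherianRing R] [Field k] (κ : R →+* k)
  (hκ : Function.Surjective κ) (hd4 : 4 * g < (g - 5).choose 2)
  (hK : ((2 * g - 2 : ℕ) : k) ≠ 0) (f : HG g →* Matrix (Fin d) (Fin d) R) {a b : ℕ}
  (hf : Conj a b (chg κ f))

include hκ hd4 hK hf in
theorem conj_ideal (n : ℕ) : ∀ I : Ideal R, (RingHom.ker κ) ^ n ≤ I → I ≤ RingHom.ker κ →
    Conj a b (chg (Ideal.Quotient.mk I) f) := by
  intro I
  induction I using WellFoundedGT.induction with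
  | _ I ih =>
    intro h1 h2
    let κ' : R ⧸ I →+* k := Ideal.Quotient.lift I κ (fun x hx => h2 hx)
    have hκ' : Function.Surjective κ' := by
      intro y
      obtain ⟨x, rfl⟩ := hκ y
      exact ⟨Ideal.Quotient.mk I x, rfl⟩
    by_cases hI : RingHom.ker κ ≤ I
    · refine step (A := R ⧸ I) (A' := k) (k := k) κ' κ' hκ' hκ' 0 (map_zero _) ?_ (map_zero _)
        (fun x _ => zero_mul x) hd4 hK _ ?_
      · intro x hx
        obtain ⟨r, rfl⟩ := Ideal.Quotient.mk_surjective x
        refine ⟨0, ?_⟩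
        rw [zero_mul]
        exact Ideal.Quotient.eq_zero_iff_mem.2 (hI hx)
      · rw [chg_chg]
        exact hf
    · -- choose the element
      have hex : ∃ m, (RingHom.ker κ) ^ m ≤ I := ⟨n, h1⟩
      classical
      obtain ⟨m, hm, hmin⟩ : ∃ m, (RingHom.ker κ) ^ m ≤ I ∧ ∀ l < m, ¬ (RingHom.ker κ) ^ l ≤ I :=
        ⟨Nat.find hex, Nat.find_spec hex, fun l hl => Nat.find_min hex hl⟩
      have hm1 : m ≠ 1 := by
        rintro rfl
        rw [pow_one] at hm
        exact hI hm
      have hm0 : m ≠ 0 := by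
        rintro rfl
        rw [pow_zero, Ideal.one_eq_top] at hm
        exact hI (le_top.trans hm)
      obtain ⟨m, rfl⟩ : ∃ l, m = l + 2 := ⟨m - 2, by omega⟩
      obtain ⟨j, hj1, hj2⟩ := SetLike.not_le_iff_exists.1 (hmin (m + 1) (by omega))
      have hjk : j ∈ RingHom.ker κ := by
        rw [pow_succ] at hj1
        exact Ideal.mul_le_right hj1
      have hmul : ∀ r ∈ RingHom.ker κ, j * r ∈ I := by
        intro r hr
        apply hm
        rw [show m + 2 = m + 1 + 1 by ring, pow_succ]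
        exact Ideal.mul_mem_mul hj1 hr
      set I' := I ⊔ Ideal.span {j} with hI'
      have hle : I ≤ I' := le_sup_left
      have hjI' : j ∈ I' := Ideal.mem_sup_right (Ideal.mem_span_singleton_self j)
      have hlt : I < I' := lt_of_le_of_ne hle (fun e => hj2 (e ▸ hjI'))
      have hle' : I' ≤ RingHom.ker κ := sup_le h2 ((Ideal.span_singleton_le_iff_mem _).2 hjk)
      have hrec := ih I' hlt (h1.trans hle) hle'
      refine step (A := R ⧸ I) (A' := R ⧸ I') (k := k) (Ideal.Quotient.factor hle) κ'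
        (Ideal.Quotient.factor_surjective hle) hκ' (Ideal.Quotient.mk I j) ?_ ?_ ?_ ?_ hd4 hK _ ?_
      · rw [Ideal.Quotient.factor_mk]
        exact Ideal.Quotient.eq_zero_iff_mem.2 hjI'
      · intro x hx
        obtain ⟨r, rfl⟩ := Ideal.Quotient.mk_surjective x
        rw [Ideal.Quotient.factor_mk] at hx
        have hr := Ideal.Quotient.eq_zero_iff_mem.1 hx
        obtain ⟨s, hs, t, ht, rfl⟩ := Submodule.mem_sup.1 hr
        obtain ⟨u, rfl⟩ := Ideal.mem_span_singleton.1 ht
        refine ⟨Ideal.Quotient.mk I u, ?_⟩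
        rw [map_add, Ideal.Quotient.eq_zero_iff_mem.2 hs, zero_add, map_mul]
      · exact hjk
      · intro x hx
        obtain ⟨r, rfl⟩ := Ideal.Quotient.mk_surjective x
        rw [← map_mul]
        exact Ideal.Quotient.eq_zero_iff_mem.2 (hmul r hx)
      · rw [chg_chg]
        exact hrec

end

/-- separation of elements in Noetherian rings by powers of maximal ideals -/
theorem separate {R : Type*} [CommRing R] [IsNoetherianRing R] {r : R} (hr : r ≠ 0) :
    ∃ 𝔪 : Ideal R, 𝔪.IsMaximal ∧ ∃ n : ℕ, r ∉ 𝔪 ^ n := by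
  have h1 : (Ideal.span {r} : Ideal R).annihilator ≠ ⊤ := by
    intro h
    apply hr
    have h2 : (1 : R) ∈ (Ideal.span {r} : Ideal R).annihilator := by rw [h]; trivial
    have h3 := Submodule.mem_annihilator.1 h2 r (Ideal.mem_span_singleton_self r)
    simpa using h3
  obtain ⟨𝔪, hm, hle⟩ := Ideal.exists_le_maximal _ h1
  refine ⟨𝔪, hm, ?_⟩
  by_contra hcon
  push Not at hcon
  have h4 : r ∈ (⨅ i : ℕ, 𝔪 ^ i • ⊤ : Submodule R R) := by
    rw [Submodule.mem_iInf]
    intro i
    rw [smul_eq_mul, Ideal.mul_top]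
    exact hcon i
  obtain ⟨s, hs⟩ := (Ideal.mem_iInf_smul_pow_eq_bot_iff 𝔪 r).1 h4
  have h5 : (1 - (s : R)) ∈ (Ideal.span {r} : Ideal R).annihilator := by
    rw [Submodule.mem_annihilator]
    intro x hx
    obtain ⟨u, rfl⟩ := Ideal.mem_span_singleton.1 hx
    have h6 : (s : R) * r = r := hs
    show (1 - (s : R)) * (r * u) = 0
    calc (1 - (s : R)) * (r * u) = (r - (s : R) * r) * u := by ring
      _ = 0 := by rw [h6, sub_self, zero_mul]
  have h7 := 𝔪.add_mem (hle h5) s.2
  rw [sub_add_cancel] at h7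
  exact hm.ne_top ((Ideal.eq_top_iff_one _).2 h7)

end Pool.Agent.E8helper34.MR
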