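import Mathlib
import Pool.Agent.E8helper34.MR.Ker

set_option autoImplicit false

/-! Reduction to finitely generated rings. -/

namespace Pool.Agent.E8helper34.MR

open Pool.Agent.H29R2.MG Pool.Agent.TH35.MG Pool.Agent.R352.MG Pool.Agent.R665.MGR
open Module Matrix

section
variable {g d : ℕ} {R : Type*} [CommRing R]

/-- a finitely generated subring containing the entries -/
theorem exists_sub (hg : 2 ≤ g) (hu : IsUnit ((2 * g - 2 : ℕ) : R))
    (f : HG g →* Matrix (Fin d) (Fin d) R) :
    ∃ A : Subalgebra ℤ R, A.FG ∧ IsUnit ((2 * g - 2 : ℕ) : A) ∧ ∀ x i j, f x i j ∈ A := by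
  classical
  obtain ⟨u, hu⟩ := hu
  let gens : Finset (HG g) := (Finset.range (2 * g)).image (tM g) ∪
    (Finset.range (2 * g)).image (fun j => (tM g j)⁻¹) ∪ {aM g 1, (aM g 1)⁻¹}
  let S : Finset R := (gens ×ˢ (Finset.univ : Finset (Fin d × Fin d))).image
    (fun p => f p.1 p.2.1 p.2.2) ∪ {((u⁻¹ : Rˣ) : R)}
  have hS : ∀ x ∈ gens, ∀ i j, f x i j ∈ Algebra.adjoin ℤ (S : Set R) := by
    intro x hx i j
    apply Algebra.subset_adjoin
    rw [Finset.mem_coe]
    apply Finset.mem_union_left
    rw [Finset.mem_image]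
    exact ⟨(x, (i, j)), Finset.mem_product.2 ⟨hx, Finset.mem_univ _⟩, rfl⟩
  refine ⟨Algebra.adjoin ℤ (S : Set R), ⟨S, rfl⟩, ?_, ?_⟩
  · have h1 : ((u⁻¹ : Rˣ) : R) ∈ Algebra.adjoin ℤ (S : Set R) := by
      apply Algebra.subset_adjoin
      rw [Finset.mem_coe]
      apply Finset.mem_union_right
      exact Finset.mem_singleton_self _
    refine IsUnit.of_mul_eq_one ⟨_, h1⟩ ?_
    apply Subtype.ext
    show ((2 * g - 2 : ℕ) : R) * ((u⁻¹ : Rˣ) : R) = 1
    rw [← hu, Units.mul_inv]
  · have key : ∀ x : HG g, (∀ i j, f x i j ∈ Algebra.adjoin ℤ (S : Set R)) ∧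
        ∀ i j, f x⁻¹ i j ∈ Algebra.adjoin ℤ (S : Set R) := by
      intro x
      induction x using HG_induction hg with
      | ht j hj =>
        refine ⟨hS _ ?_, hS _ ?_⟩
        · apply Finset.mem_union_left
          apply Finset.mem_union_left
          exact Finset.mem_image_of_mem _ (Finset.mem_range.2 hj)
        · apply Finset.mem_union_left
          apply Finset.mem_union_right
          exact Finset.mem_image_of_mem (fun j => (tM g j)⁻¹) (Finset.mem_range.2 hj)
      | he =>
        refine ⟨hS _ ?_, hS _ ?_⟩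
        · apply Finset.mem_union_right
          simp
        · apply Finset.mem_union_right
          simp
      | h1 =>
        have h2 : ∀ i j, f 1 i j ∈ Algebra.adjoin ℤ (S : Set R) := by
          intro i j
          rw [map_one, Matrix.one_apply]
          split_ifs
          · exact one_mem _
          · exact zero_mem _
        refine ⟨h2, ?_⟩
        rw [inv_one]
        exact h2
      | hmul x y h1 h2 =>
        refine ⟨?_, ?_⟩
        · intro i j
          rw [map_mul, Matrix.mul_apply]
          exact sum_mem fun k _ => mul_mem (h1.1 i k) (h2.1 k j)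
        · intro i j
          rw [_root_.mul_inv_rev, map_mul, Matrix.mul_apply]
          exact sum_mem fun k _ => mul_mem (h2.2 i k) (h1.2 k j)
      | hinv x h1 =>
        refine ⟨h1.2, ?_⟩
        rw [inv_inv]
        exact h1.1
    exact fun x => (key x).1

/-- the kernel over an arbitrary commutative ring -/
theorem ker_ring (hd4 : 4 * g < (g - 5).choose 2)
    (hd : d < (g - 5).choose 2) (hu : IsUnit ((2 * g - 2 : ℕ) : R))
    (f : HG g →* Matrix (Fin d) (Fin d) R) :
    ∃ m : ℕ, (∀ n : ℕ, (n : R) = 0 → m ∣ n) ∧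
      ∀ x, f x = 1 ↔ ∀ k l, (m : ℤ) ∣ (HM g x - 1) k l := by
  have hg := seven_le hd
  obtain ⟨A, hA, huA, hfA⟩ := exists_sub (by omega) hu f
  have hft : Algebra.FiniteType ℤ A := (Subalgebra.fg_iff_finiteType A).1 hA
  have hN : IsNoetherianRing A := Algebra.FiniteType.isNoetherianRing ℤ A
  let f₀ : HG g →* Matrix (Fin d) (Fin d) A :=
    { toFun := fun x => Matrix.of fun i j => ⟨f x i j, hfA x i j⟩
      map_one' := by
        ext i j
        show f 1 i j = (((1 : Matrix (Fin d) (Fin d) A) i j : A) : R)
        rw [map_one, Matrix.one_apply, Matrix.one_apply]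
        split_ifs <;> rfl
      map_mul' := by
        intro x y
        ext i j
        show f (x * y) i j = _
        rw [map_mul, Matrix.mul_apply, Matrix.mul_apply]
        rw [AddSubmonoidClass.coe_finsetSum]
        rfl }
  have hval : ∀ x i j, ((f₀ x i j : A) : R) = f x i j := fun x i j => rfl
  obtain ⟨m, h1, h2⟩ := ker_noeth hd4 hd huA f₀
  refine ⟨m, ?_, ?_⟩
  · intro n hn
    apply h1
    apply Subtype.ext
    exact hn
  · intro x
    rw [← h2]
    constructor
    · intro h
      ext i j
      rw [hval, h, Matrix.one_apply, Matrix.one_apply]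
      split_ifs <;> rfl
    · intro h
      ext i j
      rw [← hval, h, Matrix.one_apply, Matrix.one_apply]
      split_ifs <;> rfl

end

end Pool.Agent.E8helper34.MR
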