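import Mathlib
import Pool.Agent.E8helper34.MR.Lay

set_option autoImplicit false

/-! Modules over Noetherian rings are generated, modulo powers of a maximal ideal, by families on
which the group acts as on the homology and by fixed vectors. -/

namespace Pool.Agent.E8helper34.MR

open Pool.Agent.H29R2.MG Pool.Agent.TH35.MG Pool.Agent.R352.MG Pool.Agent.R665.MGR
open Module Matrix

section
variable {g : ℕ} {R k V : Type*} [CommRing R] [Field k] {κ : R →+* k}
  (hκ : Function.Surjective κ) [AddCommGroup V] [Module R V]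

/-- a stable submodule -/
def Stable (ρ : HG g →* Module.End R V) (U : Submodule R V) : Prop := ∀ x, ∀ v ∈ U, ρ x v ∈ U

/-- the action on the quotient -/
def quo (ρ : HG g →* Module.End R V) {U : Submodule R V} (hU : Stable ρ U) :
    HG g →* Module.End R (V ⧸ U) where
  toFun x := U.mapQ U (ρ x) (fun v hv => hU x v hv)
  map_one' := by
    apply LinearMap.ext
    intro v
    obtain ⟨v, rfl⟩ := Submodule.Quotient.mk_surjective U v
    rw [Submodule.mapQ_apply, map_one]
    rfl
  map_mul' x y := by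
    apply LinearMap.ext
    intro v
    obtain ⟨v, rfl⟩ := Submodule.Quotient.mk_surjective U v
    rw [Submodule.mapQ_apply, map_mul]
    rfl

theorem quo_mk (ρ : HG g →* Module.End R V) {U : Submodule R V} (hU : Stable ρ U) (x : HG g)
    (v : V) : quo ρ hU x (U.mkQ v) = U.mkQ (ρ x v) := rfl

include hκ in
/-- lifting of families, relative version -/
theorem lift_rel {m' : Type*} [Fintype m'] [DecidableEq m'] (S' : HG g →* Matrix m' m' R)
    (hsec : ∀ (a b : ℕ) (c : HG g → Matrix (Ix g a b) m' k),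
      (∀ x y, c (x * y) = Std a b k x * c y + c x * (S' y).map κ) →
      ∃ D : Matrix (Ix g a b) m' k, ∀ x, c x = D * (S' x).map κ - Std a b k x * D)
    (ρ : HG g →* Module.End R V) {U U' : Submodule R V} (hU : Stable ρ U) (hU' : Stable ρ U')
    (hle : U ≤ U') (hκU : ∀ r, κ r = 0 → ∀ v ∈ U', r • v ∈ U) {d : ℕ} (s : Fin d → V)
    (hs : ∀ i, s i ∈ U') (hgen : ∀ v ∈ U', ∃ r : Fin d → R, v - ∑ i, r i • s i ∈ U)
    (hd : d < (g - 5).choose 2) (hK : ((2 * g - 2 : ℕ) : k) ≠ 0) (u : m' → V)
    (hu : ∀ x l, ρ x (u l) - ∑ j, S' x j l • u j ∈ U') :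
    ∃ u' : m' → V, (∀ l, u' l - u l ∈ U') ∧
      ∀ x l, ρ x (u' l) - ∑ j, S' x j l • u' j ∈ U := by
  have hmk : ∀ v, U.mkQ v = 0 ↔ v ∈ U := fun v => Submodule.Quotient.mk_eq_zero U
  have hmem : ∀ v, U.mkQ v ∈ U'.map U.mkQ ↔ v ∈ U' := by
    intro v
    constructor
    · rintro ⟨w, hw, h⟩
      have h1 : U.mkQ (v - w) = 0 := by rw [map_sub, h, sub_self]
      have h2 := U'.add_mem (hle ((hmk _).1 h1)) hw
      rwa [sub_add_cancel] at h2
    · intro hv
      exact ⟨v, hv, rfl⟩
  obtain ⟨w, h1, h2⟩ := lift_abs hκ S' hsec (quo ρ hU) (L := U'.map U.mkQ) (by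
      rintro x _ ⟨v, hv, rfl⟩
      exact ⟨ρ x v, hU' x v hv, rfl⟩) (by
      rintro r hr _ ⟨v, hv, rfl⟩
      rw [← map_smul, hmk]
      exact hκU r hr v hv) (fun i => U.mkQ (s i)) (fun i => ⟨s i, hs i, rfl⟩) (by
      rintro _ ⟨v, hv, rfl⟩
      obtain ⟨r, hr⟩ := hgen v hv
      refine ⟨r, ?_⟩
      rw [← sub_eq_zero, ← hmk] at *
      rw [map_sub, map_sum] at hr
      simp only [map_smul] at hr
      exact hr) hd hK (fun l => U.mkQ (u l)) (by
      intro x l
      have h := (hmem _).2 (hu x l)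
      rw [map_sub, map_sum] at h
      simp only [map_smul] at h
      exact h)
  have h3 : ∀ l, ∃ v, U.mkQ v = w l := fun l => Submodule.mkQ_surjective U (w l)
  choose u' hu' using h3
  refine ⟨u', ?_, ?_⟩
  · intro l
    rw [← hmem, map_sub, hu']
    exact h1 l
  · intro x l
    rw [← hmk, map_sub, map_sum]
    simp only [map_smul]
    rw [← quo_mk ρ hU, hu', h2, sub_eq_zero]
    apply Finset.sum_congr rfl
    intro j _
    rw [hu']

/-- the submodule generated by the families modulo `U` and the vectors fixed modulo `U` -/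
def GG (ρ : HG g →* Module.End R V) (U : Submodule R V) : Submodule R V :=
  Submodule.span R ({v | ∃ u : Fin g ⊕ Fin g → V,
    (∀ x l, ρ x (u l) - ∑ j, HR g R x j l • u j ∈ U) ∧ ∃ l, v = u l} ∪
      {v | ∀ x, ρ x v - v ∈ U})

theorem le_GG (ρ : HG g →* Module.End R V) {U : Submodule R V} (hU : Stable ρ U) :
    U ≤ GG ρ U := fun v hv =>
  Submodule.subset_span (Or.inr fun x => U.sub_mem (hU x v hv) hv)

include hκ in
theorem GG_lift (ρ : HG g →* Module.End R V) {U U' : Submodule R V} (hU : Stable ρ U)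
    (hU' : Stable ρ U') (hle : U ≤ U') (hκU : ∀ r, κ r = 0 → ∀ v ∈ U', r • v ∈ U) {d : ℕ}
    (s : Fin d → V) (hs : ∀ i, s i ∈ U')
    (hgen : ∀ v ∈ U', ∃ r : Fin d → R, v - ∑ i, r i • s i ∈ U)
    (hd4 : 4 * g < (g - 5).choose 2) (hd : d < (g - 5).choose 2)
    (hK : ((2 * g - 2 : ℕ) : k) ≠ 0) (h : GG ρ U' = ⊤) : ⊤ ≤ GG ρ U ⊔ U' := by
  rw [← h]
  apply Submodule.span_le.2
  rintro v (⟨u, hu, l, rfl⟩ | hv)
  · obtain ⟨u', h1, h2⟩ := lift_rel hκ (HR g R) (by
        intro a b c hc
        simp only [HR_map] at hc ⊢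
        exact innerH hd4 hK c hc) ρ hU hU' hle hκU s hs hgen hd hK u hu
    have e : u l = u' l - (u' l - u l) := by abel
    rw [e]
    exact Submodule.sub_mem _ (Submodule.mem_sup_left (Submodule.subset_span
      (Or.inl ⟨u', h2, l, rfl⟩))) (Submodule.mem_sup_right (h1 l))
  · have hone : ∀ x : HG g, ((1 : HG g →* Matrix Unit Unit R) x).map κ =
        (1 : HG g →* Matrix Unit Unit k) x := by
      intro x
      rw [MonoidHom.one_apply, MonoidHom.one_apply]
      exact Matrix.map_one _ (map_zero κ) (map_one κ)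
    have hsum : ∀ (x : HG g) (l : Unit) (w : Unit → V),
        ∑ j, (1 : HG g →* Matrix Unit Unit R) x j l • w j = w () := by
      intro x l w
      simp
    obtain ⟨u', h1, h2⟩ := lift_rel hκ (1 : HG g →* Matrix Unit Unit R) (by
        intro a b c hc
        simp only [hone] at hc ⊢
        exact inner1 hd4 hK c hc) ρ hU hU' hle hκU s hs hgen hd hK (fun _ => v) (by
        intro x l
        rw [hsum]
        exact hv x)
    have e : v = u' () - (u' () - v) := by abel
    rw [e]
    refine Submodule.sub_mem _ (Submodule.mem_sup_left (Submodule.subset_span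
      (Or.inr ?_))) (Submodule.mem_sup_right (h1 ()))
    intro x
    have h3 := h2 x ()
    rw [hsum] at h3
    exact h3

include hκ in
theorem GG_base (ρ : HG g →* Module.End R V) {U : Submodule R V} (hU : Stable ρ U)
    (hκU : ∀ r, κ r = 0 → ∀ v : V, r • v ∈ U) {d : ℕ}
    (s : Fin d → V) (hgen : ∀ v, ∃ r : Fin d → R, v = ∑ i, r i • s i)
    (hd : d < (g - 5).choose 2) (hK : ((2 * g - 2 : ℕ) : k) ≠ 0) : GG ρ U = ⊤ := by
  have hmk : ∀ v, U.mkQ v = 0 ↔ v ∈ U := fun v => Submodule.Quotient.mk_eq_zero U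
  obtain ⟨a, b, B, h1, h2, h3, h4⟩ := layer hκ (quo ρ hU) (L := ⊤) (fun _ _ _ => trivial) (by
      intro r hr v _
      obtain ⟨v, rfl⟩ := Submodule.mkQ_surjective U v
      rw [← map_smul, hmk]
      exact hκU r hr v) (fun i => U.mkQ (s i)) (fun _ => trivial) (by
      intro v _
      obtain ⟨v, rfl⟩ := Submodule.mkQ_surjective U v
      obtain ⟨r, hr⟩ := hgen v
      refine ⟨r, ?_⟩
      conv_lhs => rw [hr]
      rw [map_sum]
      simp only [map_smul]) hd hK
  have h5 : ∀ p, ∃ v, U.mkQ v = B p := fun p => Submodule.mkQ_surjective U (B p)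
  choose B' hB' using h5
  rw [eq_top_iff]
  rintro v -
  obtain ⟨r, hr⟩ := h2 (U.mkQ v) trivial
  have h6 : v - ∑ p, r p • B' p ∈ U := by
    rw [← hmk, map_sub, map_sum, sub_eq_zero, hr]
    apply Finset.sum_congr rfl
    intro p _
    rw [map_smul, hB']
  have h7 : ∀ p, B' p ∈ GG ρ U := by
    rintro (⟨i, l⟩ | i)
    · refine Submodule.subset_span (Or.inl ⟨fun l => B' (Sum.inl (i, l)), ?_, l, rfl⟩)
      intro x l
      rw [← hmk, map_sub, map_sum, ← quo_mk ρ hU, hB', h4, Std_col_l, sub_eq_zero]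
      apply Finset.sum_congr rfl
      intro j _
      rw [map_smul, hB']
    · refine Submodule.subset_span (Or.inr ?_)
      intro x
      rw [← hmk, map_sub, ← quo_mk ρ hU, hB', h4, Std_col_r, sub_self]
  have h8 := Submodule.add_mem _ (le_GG ρ hU h6)
    (Submodule.sum_mem _ fun p (_ : p ∈ Finset.univ) => Submodule.smul_mem (GG ρ U) (r p) (h7 p))
  rwa [sub_add_cancel] at h8

theorem smul_stable (ρ : HG g →* Module.End R V) (I : Ideal R) :
    Stable ρ (I • (⊤ : Submodule R V)) := by
  intro x v hv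
  induction hv using Submodule.smul_induction_on' with
  | smul r hr w _ =>
    rw [map_smul]
    exact Submodule.smul_mem_smul hr Submodule.mem_top
  | add v _ w _ h1 h2 =>
    rw [map_add]
    exact Submodule.add_mem _ h1 h2

include hκ in
/-- generation -/
theorem GG_top [IsNoetherianRing R] (ρ : HG g →* Module.End R V) {d : ℕ}
    (s : Fin d → V) (hgen : ∀ v, ∃ r : Fin d → R, v = ∑ i, r i • s i)
    (hd4 : 4 * g < (g - 5).choose 2)
    (hd : d < (g - 5).choose 2) (hK : ((2 * g - 2 : ℕ) : k) ≠ 0) (n : ℕ) :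
    ∀ U : Submodule R V, Stable ρ U → (RingHom.ker κ) ^ n • ⊤ ≤ U →
      U ≤ (RingHom.ker κ) • ⊤ → GG ρ U = ⊤ := by
  classical
  have hfin : Module.Finite R V := by
    refine ⟨⟨Finset.univ.image s, ?_⟩⟩
    rw [Finset.coe_image, Finset.coe_univ, Set.image_univ, eq_top_iff]
    rintro v -
    obtain ⟨r, rfl⟩ := hgen v
    exact Submodule.sum_mem _ fun i _ => Submodule.smul_mem _ _ (Submodule.subset_span ⟨i, rfl⟩)
  have hN : IsNoetherian R V := isNoetherian_of_isNoetherianRing_of_finite R V
  intro U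
  induction U using WellFoundedGT.induction with
  | _ U ih =>
    intro hU h1 h2
    by_cases hI : (RingHom.ker κ) • (⊤ : Submodule R V) ≤ U
    · exact GG_base hκ ρ hU (fun r hr v => hI (Submodule.smul_mem_smul hr Submodule.mem_top)) s hgen hd hK
    · have hex : ∃ m, (RingHom.ker κ) ^ m • (⊤ : Submodule R V) ≤ U := ⟨n, h1⟩
      obtain ⟨m, hm, hmin⟩ : ∃ m, (RingHom.ker κ) ^ m • (⊤ : Submodule R V) ≤ U ∧
          ∀ l < m, ¬ (RingHom.ker κ) ^ l • (⊤ : Submodule R V) ≤ U :=
        ⟨Nat.find hex, Nat.find_spec hex, fun l hl => Nat.find_min hex hl⟩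
      have hm1 : m ≠ 1 := by
        rintro rfl
        rw [pow_one] at hm
        exact hI hm
      have hm0 : m ≠ 0 := by
        rintro rfl
        rw [pow_zero, Ideal.one_eq_top, Submodule.top_smul] at hm
        exact hI (le_top.trans hm)
      obtain ⟨m, rfl⟩ : ∃ l, m = l + 2 := ⟨m - 2, by omega⟩
      have hnot := hmin (m + 1) (by omega)
      rw [Submodule.smul_le] at hnot
      push Not at hnot
      obtain ⟨j, hj1, v0, -, hj2⟩ := hnot
      have hjk : j ∈ RingHom.ker κ := by
        rw [pow_succ] at hj1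
        exact Ideal.mul_le_right hj1
      have hmul : ∀ r ∈ RingHom.ker κ, ∀ v : V, (r * j) • v ∈ U := by
        intro r hr v
        have h5 : r * j ∈ (RingHom.ker κ) ^ (m + 2) := by
          rw [show m + 2 = m + 1 + 1 by ring, pow_succ']
          exact Ideal.mul_mem_mul hr hj1
        exact hm (Submodule.smul_mem_smul h5 (Submodule.mem_top))
      set U' : Submodule R V := U ⊔ (⊤ : Submodule R V).map (LinearMap.lsmul R V j) with hU'def
      have hjU' : ∀ v : V, j • v ∈ U' := fun v => Submodule.mem_sup_right ⟨v, trivial, rfl⟩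
      have hel : ∀ v ∈ U', ∃ u ∈ U, ∃ w : V, v = u + j • w := by
        intro v hv
        obtain ⟨u, hu, t, ⟨w, _, rfl⟩, rfl⟩ := Submodule.mem_sup.1 hv
        exact ⟨u, hu, w, rfl⟩
      have hle : U ≤ U' := le_sup_left
      have hlt : U < U' := lt_of_le_of_ne hle (fun e => hj2 (e ▸ hjU' v0))
      have hle' : U' ≤ (RingHom.ker κ) • ⊤ := by
        intro v hv
        obtain ⟨u, hu, w, rfl⟩ := hel v hv
        exact Submodule.add_mem _ (h2 hu) (Submodule.smul_mem_smul hjk Submodule.mem_top)
      have hst : Stable ρ U' := by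
        intro x v hv
        obtain ⟨u, hu, w, rfl⟩ := hel v hv
        rw [map_add, map_smul]
        exact Submodule.add_mem _ (hle (hU x u hu)) (hjU' _)
      have hrec := ih U' hlt hst (h1.trans hle) hle'
      have key := GG_lift hκ ρ hU hst hle (by
          intro r hr v hv
          obtain ⟨u, hu, w, rfl⟩ := hel v hv
          rw [smul_add, smul_smul]
          exact U.add_mem (U.smul_mem r hu) (hmul r hr w)) (fun i => j • s i) (fun i => hjU' _) (by
          intro v hv
          obtain ⟨u, hu, w, rfl⟩ := hel v hv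
          obtain ⟨r, hr⟩ := hgen w
          refine ⟨r, ?_⟩
          have e : ∑ i, r i • j • s i = j • w := by
            rw [hr, Finset.smul_sum]
            apply Finset.sum_congr rfl
            intro i _
            rw [smul_smul, smul_smul, mul_comm]
          rw [e, add_sub_cancel_right]
          exact hu) hd4 hd hK hrec
      -- Nakayama
      have key2 : ∀ l, ⊤ ≤ GG ρ U ⊔ (RingHom.ker κ) ^ l • (⊤ : Submodule R V) := by
        intro l
        induction l with
        | zero =>
          rw [pow_zero, Ideal.one_eq_top, Submodule.top_smul]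
          exact le_sup_right
        | succ l ihl =>
          have h3 : (⊤ : Submodule R V) ≤ GG ρ U ⊔ (RingHom.ker κ) • ⊤ :=
            key.trans (sup_le_sup_left hle' _)
          have h4 : (RingHom.ker κ) ^ l • (⊤ : Submodule R V) ≤
              GG ρ U ⊔ (RingHom.ker κ) ^ (l + 1) • ⊤ := by
            calc (RingHom.ker κ) ^ l • (⊤ : Submodule R V)
                ≤ (RingHom.ker κ) ^ l • (GG ρ U ⊔ (RingHom.ker κ) • ⊤) :=
                  smul_mono_right _ h3
              _ = (RingHom.ker κ) ^ l • GG ρ U ⊔ (RingHom.ker κ) ^ l • ((RingHom.ker κ) • ⊤) :=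
                  Submodule.smul_sup _ _ _
              _ ≤ _ := by
                  refine sup_le_sup Submodule.smul_le_right ?_
                  rw [← Submodule.mul_smul, ← pow_succ]
          exact ihl.trans (sup_le le_sup_left h4)
      rw [eq_top_iff]
      refine (key2 (m + 2)).trans (sup_le le_rfl (hm.trans (le_GG ρ hU)))

end

end Pool.Agent.E8helper34.MR
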