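import Mathlib
import Pool.Agent.E8helper34.MR.Km

set_option autoImplicit false

/-! Reduction to finitely generated rings: modules. -/

namespace Pool.Agent.E8helper34.MR

open Pool.Agent.H29R2.MG Pool.Agent.TH35.MG Pool.Agent.R352.MG Pool.Agent.R665.MGR
open Module Matrix

/-- the kernel of an action on a module generated by few elements over a commutative ring -/
theorem ker_mod {g d : ℕ} {R V : Type*} [CommRing R] [AddCommGroup V] [Module R V]
    (ρ : HG g →* Module.End R V) (hd4 : 4 * g < (g - 5).choose 2)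
    (hd : d < (g - 5).choose 2) (hunit : IsUnit ((2 * g - 2 : ℕ) : R))
    (s : Fin d → V) (hgen : ∀ v, ∃ r : Fin d → R, v = ∑ i, r i • s i) :
    ∃ m : ℕ, (∀ n : ℕ, (∀ v : V, n • v = 0) → m ∣ n) ∧
      ∀ x, ρ x = 1 ↔ ∀ k l, (m : ℤ) ∣ (HM g x - 1) k l := by
  classical
  have hg := seven_le hd
  obtain ⟨u, hu⟩ := hunit
  have hr : ∀ (y : HG g) (i : Fin d), ∃ r : Fin d → R, ρ y (s i) = ∑ j, r j • s j :=
    fun y i => hgen _
  choose r hr using hr
  let gens : Finset (HG g) := (Finset.range (2 * g)).image (tM g) ∪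
    (Finset.range (2 * g)).image (fun j => (tM g j)⁻¹) ∪ {aM g 1, (aM g 1)⁻¹}
  let S : Finset R := (gens ×ˢ (Finset.univ : Finset (Fin d × Fin d))).image
    (fun p => r p.1 p.2.1 p.2.2) ∪ {((u⁻¹ : Rˣ) : R)}
  let A : Subalgebra ℤ R := Algebra.adjoin ℤ (S : Set R)
  have hS : ∀ x ∈ gens, ∀ i j, r x i j ∈ A := by
    intro x hx i j
    apply Algebra.subset_adjoin
    rw [Finset.mem_coe]
    apply Finset.mem_union_left
    rw [Finset.mem_image]
    exact ⟨(x, (i, j)), Finset.mem_product.2 ⟨hx, Finset.mem_univ _⟩, rfl⟩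
  have huA : IsUnit ((2 * g - 2 : ℕ) : A) := by
    have h1 : ((u⁻¹ : Rˣ) : R) ∈ A := by
      apply Algebra.subset_adjoin
      rw [Finset.mem_coe]
      apply Finset.mem_union_right
      exact Finset.mem_singleton_self _
    refine IsUnit.of_mul_eq_one ⟨_, h1⟩ ?_
    apply Subtype.ext
    show ((2 * g - 2 : ℕ) : R) * ((u⁻¹ : Rˣ) : R) = 1
    rw [← hu, Units.mul_inv]
  have hA : A.FG := ⟨S, rfl⟩
  have hft : Algebra.FiniteType ℤ A := (Subalgebra.fg_iff_finiteType A).1 hA
  have hN : IsNoetherianRing A := Algebra.FiniteType.isNoetherianRing ℤ A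
  -- the module
  let V₀ : Submodule A V := Submodule.span A (Set.range s)
  have hsV : ∀ i, s i ∈ V₀ := fun i => Submodule.subset_span ⟨i, rfl⟩
  have hst0 : ∀ y ∈ gens, ∀ w ∈ V₀, ρ y w ∈ V₀ := by
    intro y hy w hw
    induction hw using Submodule.span_induction with
    | mem w hw =>
      obtain ⟨i, rfl⟩ := hw
      rw [hr]
      refine Submodule.sum_mem _ fun j _ => ?_
      exact V₀.smul_mem (⟨r y i j, hS y hy i j⟩ : A) (hsV j)
    | zero => rw [map_zero]; exact V₀.zero_mem
    | add w w' _ _ h1 h2 => rw [map_add]; exact V₀.add_mem h1 h2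
    | smul c w _ h1 =>
      have e : ρ y (c • w) = c • ρ y w := map_smul (ρ y) (c : R) w
      rw [e]
      exact V₀.smul_mem c h1
  have hst2 : ∀ y : HG g, (∀ w ∈ V₀, ρ y w ∈ V₀) ∧ ∀ w ∈ V₀, ρ y⁻¹ w ∈ V₀ := by
    intro y
    induction y using HG_induction (g := g) (by omega) with
    | ht j hj =>
      refine ⟨hst0 _ ?_, hst0 _ ?_⟩
      · apply Finset.mem_union_left
        apply Finset.mem_union_left
        exact Finset.mem_image_of_mem _ (Finset.mem_range.2 hj)
      · apply Finset.mem_union_left
        apply Finset.mem_union_right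
        exact Finset.mem_image_of_mem (fun j => (tM g j)⁻¹) (Finset.mem_range.2 hj)
    | he =>
      refine ⟨hst0 _ ?_, hst0 _ ?_⟩
      · apply Finset.mem_union_right
        simp
      · apply Finset.mem_union_right
        simp
    | h1 =>
      have h2 : ∀ w ∈ V₀, ρ 1 w ∈ V₀ := by
        intro w hw
        rw [map_one]
        exact hw
      refine ⟨h2, ?_⟩
      rw [inv_one]
      exact h2
    | hmul x y h1 h2 =>
      refine ⟨?_, ?_⟩
      · intro w hw
        rw [map_mul]
        exact h1.1 _ (h2.1 w hw)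
      · intro w hw
        rw [_root_.mul_inv_rev, map_mul]
        exact h2.2 _ (h1.2 w hw)
    | hinv x h1 =>
      refine ⟨h1.2, ?_⟩
      rw [inv_inv]
      exact h1.1
  have hst : ∀ y : HG g, ∀ w ∈ V₀, ρ y w ∈ V₀ := fun y => (hst2 y).1
  let ρ₀ : HG g →* Module.End A V₀ :=
    { toFun := fun y =>
        { toFun := fun w => ⟨ρ y w, hst y w w.2⟩
          map_add' := by
            intro w w'
            apply Subtype.ext
            exact map_add (ρ y) (w : V) w'
          map_smul' := by
            intro c w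
            apply Subtype.ext
            exact map_smul (ρ y) (c : R) (w : V) }
      map_one' := by
        apply LinearMap.ext
        intro w
        apply Subtype.ext
        show ρ 1 (w : V) = w
        rw [map_one, Module.End.one_apply]
      map_mul' := by
        intro x y
        apply LinearMap.ext
        intro w
        apply Subtype.ext
        show ρ (x * y) (w : V) = ρ x (ρ y w)
        rw [map_mul, Module.End.mul_apply] }
  have hρ₀ : ∀ x (w : V₀), ((ρ₀ x w : V₀) : V) = ρ x w := fun x w => rfl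
  obtain ⟨m, h1, h2⟩ := ker_mod_noeth ρ₀ hd4 hd huA (fun i => ⟨s i, hsV i⟩) (by
    rintro ⟨w, hw⟩
    obtain ⟨c, hc⟩ := (Submodule.mem_span_range_iff_exists_fun A).1 hw
    refine ⟨c, ?_⟩
    apply Subtype.ext
    rw [Submodule.coe_sum]
    exact hc.symm)
  refine ⟨m, ?_, ?_⟩
  · intro n hn
    apply h1
    intro w
    apply Subtype.ext
    exact hn w
  · intro x
    rw [← h2]
    constructor
    · intro h
      apply LinearMap.ext
      intro w
      apply Subtype.ext
      rw [hρ₀, h]
      rfl
    · intro h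
      have h3 : ∀ i, ρ x (s i) = s i := by
        intro i
        have h4 := hρ₀ x ⟨s i, hsV i⟩
        rw [h] at h4
        exact h4.symm
      apply LinearMap.ext
      intro v
      obtain ⟨c, rfl⟩ := hgen v
      rw [map_sum]
      simp only [map_smul, h3]
      rfl

end Pool.Agent.E8helper34.MR
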