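import Mathlib
import Pool.Agent.E8helper34.MR.Gm

set_option autoImplicit false

/-! Modules on which `2 g - 2` acts surjectively. -/

namespace Pool.Agent.E8helper34.MR

open Pool.Agent.H29R2.MG Pool.Agent.TH35.MG Pool.Agent.R352.MG Pool.Agent.R665.MGR
open Module

/-- the kernel of an action on a module generated by few elements, `2 g - 2` acting surjectively -/
theorem ker_div {g d : ℕ} {R V : Type*} [CommRing R] [AddCommGroup V] [Module R V]
    (ρ : HG g →* Module.End R V) (hd4 : 4 * g < (g - 5).choose 2)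
    (hd : d < (g - 5).choose 2) (hdiv : ∀ v : V, ∃ w : V, (2 * g - 2) • w = v)
    (s : Fin d → V) (hgen : ∀ v, ∃ r : Fin d → R, v = ∑ i, r i • s i) :
    ∃ m : ℕ, (∀ n : ℕ, (∀ v : V, n • v = 0) → m ∣ n) ∧
      ∀ x, ρ x = 1 ↔ ∀ k l, (m : ℤ) ∣ (HM g x - 1) k l := by
  classical
  have hfin : (⊤ : Submodule R V).FG := by
    refine ⟨Finset.univ.image s, ?_⟩
    rw [Finset.coe_image, Finset.coe_univ, Set.image_univ, eq_top_iff]
    rintro v -
    obtain ⟨r, rfl⟩ := hgen v
    exact Submodule.sum_mem _ fun i _ => Submodule.smul_mem _ _ (Submodule.subset_span ⟨i, rfl⟩)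
  set c : R := ((2 * g - 2 : ℕ) : R) with hc
  obtain ⟨r, hr1, hr2⟩ := Submodule.exists_sub_one_mem_and_smul_eq_zero_of_fg_of_le_smul
    (Ideal.span {c}) (⊤ : Submodule R V) hfin (by
      rintro v -
      obtain ⟨w, rfl⟩ := hdiv v
      have e : (2 * g - 2) • w = c • w := by rw [hc, Nat.cast_smul_eq_nsmul]
      rw [e]
      exact Submodule.smul_mem_smul (Ideal.mem_span_singleton_self c) Submodule.mem_top)
  obtain ⟨t, ht⟩ := Ideal.mem_span_singleton.1 hr1
  set I := Module.annihilator R V with hI
  have hrI : r ∈ I := Module.mem_annihilator.2 fun v => hr2 v Submodule.mem_top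
  let _ : Module (R ⧸ I) V := (Module.isTorsionBySet_annihilator R V).module
  have hsm : ∀ (a : R) (v : V), (Ideal.Quotient.mk I a) • v = a • v := fun a v => rfl
  have hunit : IsUnit ((2 * g - 2 : ℕ) : R ⧸ I) := by
    refine IsUnit.of_mul_eq_one (Ideal.Quotient.mk I (-t)) ?_
    have h1 : Ideal.Quotient.mk I (r - 1) = Ideal.Quotient.mk I (c * t) := by rw [ht]
    rw [map_sub, map_one, map_mul, Ideal.Quotient.eq_zero_iff_mem.2 hrI, zero_sub, hc,
      map_natCast] at h1
    rw [map_neg, mul_neg, ← h1, neg_neg]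
  let ρ' : HG g →* Module.End (R ⧸ I) V :=
    { toFun := fun x =>
        { toFun := fun v => ρ x v
          map_add' := fun v w => map_add (ρ x) v w
          map_smul' := by
            intro a v
            obtain ⟨a, rfl⟩ := Ideal.Quotient.mk_surjective a
            exact map_smul (ρ x) a v }
      map_one' := by
        apply LinearMap.ext
        intro v
        show ρ 1 v = v
        rw [map_one, Module.End.one_apply]
      map_mul' := by
        intro x y
        apply LinearMap.ext
        intro v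
        show ρ (x * y) v = ρ x (ρ y v)
        rw [map_mul, Module.End.mul_apply] }
  have hρ' : ∀ x v, ρ' x v = ρ x v := fun x v => rfl
  obtain ⟨m, h1, h2⟩ := ker_mod ρ' hd4 hd hunit s (by
    intro v
    obtain ⟨r, hr⟩ := hgen v
    exact ⟨fun i => Ideal.Quotient.mk I (r i), hr⟩)
  refine ⟨m, h1, ?_⟩
  intro x
  rw [← h2]
  constructor
  · intro h
    apply LinearMap.ext
    intro v
    rw [hρ', h]
    rfl
  · intro h
    apply LinearMap.ext
    intro v
    rw [← hρ', h]
    rfl

end Pool.Agent.E8helper34.MR
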