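import Mathlib
import Pool.Agent.R665.MGR.Rep
import Pool.Agent.E8helper34.MC.RelZ

set_option autoImplicit false

/-! Statements of pieces: the handle elements lie in Humphries' group. -/

namespace Pool.Agent.E8helper34.MR

open Pool.Agent.H29R2.MG Pool.Agent.TH35.MG Pool.Agent.R352.MG Pool.Agent.R665.MGR
  Pool.Agent.H798R3.MG Pool.Agent.E8helper34.MC

/-- the handle elements (for `N = g - 3`, `n = g - 1`) have classes in Humphries' group -/
def S_A : Prop := ∀ g : ℕ, 7 ≤ g →
  (∀ i, i + 3 < g → modF g (sA g i) ∈ Humphries g ∧ modF g (sB g i) ∈ Humphries g ∧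
    modF g (sal g (g - 1) i) ∈ Humphries g ∧ modF g (sbe g (g - 1) i) ∈ Humphries g) ∧
  (∀ i, i + 1 + 3 < g → modF g (Pool.Agent.H798R3.MG.sT g i (i + 1)) ∈ Humphries g) ∧
  modF g (stau g (g - 1)) ∈ Humphries g

/-- the hyperelliptic involution is in Humphries' group -/
def S_B : Prop := ∀ g : ℕ, 3 ≤ g → hyp g ∈ Humphries g

end Pool.Agent.E8helper34.MR
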